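import Pool.Agent.X235.Xor.Defs

set_option autoImplicit false

/-!
Periodic configurations and mixtures of periodic measures for the XOR automaton.
-/

namespace Pool.Agent.X235.Xor

open MeasureTheory Finset
open scoped ENNReal

theorem measurable_F : Measurable F := by
  unfold F
  refine measurable_pi_lambda _ fun i => ?_
  have h : Measurable fun p : Bool × Bool => xor p.1 p.2 := measurable_of_countable _
  have h2 : Measurable fun x : ℤ → Bool => (x i, x (i + 1)) :=
    (measurable_pi_apply i).prodMk (measurable_pi_apply (i + 1))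
  exact h.comp h2

theorem measurable_shift : Measurable shift :=
  measurable_pi_lambda _ fun i => measurable_pi_apply (i + 1)

theorem measurable_Fn (n : ℕ) : Measurable (F^[n]) := measurable_F.iterate n

theorem measurableSet_cyl (w : List Bool) : MeasurableSet (cyl w) := by
  have h : cyl w = ⋂ i : Fin w.length, {x : ℤ → Bool | x (i.1 : ℤ) = w.get i} := by
    ext x; simp [cyl]
  rw [h]
  exact MeasurableSet.iInter fun i => measurable_pi_apply (i.1 : ℤ) (measurableSet_singleton _)

/-- The zero configuration. -/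
def zero : ℤ → Bool := fun _ => false

theorem F_zero : F zero = zero := by funext i; simp [F, zero]

theorem Fn_zero (n : ℕ) : F^[n] zero = zero := Function.iterate_fixed F_zero n

theorem shift_zero : shift zero = zero := rfl

/-- The configuration `y` translated by `θ`. -/
def conf (y : ℤ → Bool) (θ : ℕ) : ℤ → Bool := fun i => y (i - θ)

theorem F_conf (y : ℤ → Bool) (θ : ℕ) : F (conf y θ) = conf (F y) θ := by
  funext i; simp only [F, conf]; congr 2; ring

theorem Fn_conf (n : ℕ) (y : ℤ → Bool) (θ : ℕ) : F^[n] (conf y θ) = conf (F^[n] y) θ := by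
  induction n generalizing y with
  | zero => rfl
  | succ n ih => rw [Function.iterate_succ_apply, Function.iterate_succ_apply, F_conf, ih]

theorem shift_conf (y : ℤ → Bool) (θ : ℕ) : shift (conf y θ) = conf (shift y) θ := by
  funext i; simp only [shift, conf]; congr 1; ring

theorem F_shift (y : ℤ → Bool) : F (shift y) = shift (F y) := rfl

theorem F_shift_iter (k : ℕ) (y : ℤ → Bool) : F (shift^[k] y) = shift^[k] (F y) := by
  induction k generalizing y with
  | zero => rfl
  | succ n ih => rw [Function.iterate_succ_apply, Function.iterate_succ_apply, ih, F_shift]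

theorem Fn_shift_iter (n k : ℕ) (y : ℤ → Bool) : F^[n] (shift^[k] y) = shift^[k] (F^[n] y) := by
  induction n generalizing y with
  | zero => rfl
  | succ n ih => rw [Function.iterate_succ_apply, Function.iterate_succ_apply, F_shift_iter, ih]

theorem shift_iter_apply (k : ℕ) (y : ℤ → Bool) (i : ℤ) : (shift^[k] y) i = y (i + k) := by
  induction k generalizing y with
  | zero => simp
  | succ n ih =>
    rw [Function.iterate_succ_apply, ih]; simp only [shift]; congr 1; push_cast; ring

theorem F_pow_two (k : ℕ) (y : ℤ → Bool) (i : ℤ) :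
    (F^[2 ^ k] y) i = xor (y i) (y (i + 2 ^ k)) := by
  induction k generalizing y i with
  | zero => simp [F]
  | succ k ih =>
    rw [pow_succ, mul_two, Function.iterate_add_apply, ih, ih, ih]
    have : i + 2 ^ k + 2 ^ k = i + 2 ^ (k + 1) := by ring
    rw [this]
    cases y i <;> cases y (i + 2 ^ k) <;> cases y (i + 2 ^ (k + 1)) <;> rfl

/-- Periodic configurations. -/
def Per (m : ℕ) (y : ℤ → Bool) : Prop := ∀ i, y (i + m) = y i

theorem Per.map {m : ℕ} {y : ℤ → Bool} (h : Per m y) : Per m (F y) := by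
  intro i
  simp only [F]
  rw [h i, show i + (m : ℤ) + 1 = (i + 1) + m by ring, h (i + 1)]

theorem Per.mapn {m : ℕ} {y : ℤ → Bool} (h : Per m y) (n : ℕ) : Per m (F^[n] y) := by
  induction n generalizing y with
  | zero => exact h
  | succ n ih => rw [Function.iterate_succ_apply]; exact ih h.map

theorem Per.shf {m : ℕ} {y : ℤ → Bool} (h : Per m y) : Per m (shift y) := by
  intro i
  simp only [shift]
  rw [show i + (m : ℤ) + 1 = (i + 1) + m by ring, h (i + 1)]

/-- The uniform measure on the `m` first translates of `y`. -/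
noncomputable def U (m : ℕ) (y : ℤ → Bool) : Measure (ℤ → Bool) :=
  (m : ℝ≥0∞)⁻¹ • ∑ θ ∈ range m, Measure.dirac (conf y θ)

theorem U_apply (m : ℕ) (y : ℤ → Bool) (s : Set (ℤ → Bool)) :
    U m y s = (m : ℝ≥0∞)⁻¹ * ∑ θ ∈ range m, s.indicator 1 (conf y θ) := by
  unfold U
  rw [Measure.smul_apply, Measure.finsetSum_apply, smul_eq_mul]
  congr 1
  refine sum_congr rfl fun θ _ => ?_
  rw [Measure.dirac_apply]

theorem U_F (m : ℕ) (y : ℤ → Bool) (n : ℕ) (s : Set (ℤ → Bool)) :
    U m y (F^[n] ⁻¹' s) = U m (F^[n] y) s := by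
  rw [U_apply, U_apply]
  congr 1
  refine sum_congr rfl fun θ _ => ?_
  rw [← Fn_conf]
  rfl

theorem U_shift (m : ℕ) (y : ℤ → Bool) (h : Per m y) (s : Set (ℤ → Bool)) :
    U m (shift y) s = U m y s := by
  rw [U_apply, U_apply]
  congr 1
  rcases m with _ | m
  · simp
  · have h1 : ∀ θ : ℕ, conf (shift y) (θ + 1) = conf y θ := by
      intro θ
      funext i
      simp only [conf, shift]
      congr 1; push_cast; ring
    have h2 : conf (shift y) 0 = conf y m := by
      funext i
      simp only [conf, shift]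
      rw [← h (i - m)]
      congr 1; push_cast; ring
    rw [sum_range_succ' (fun θ => s.indicator (1 : (ℤ → Bool) → ℝ≥0∞) (conf (shift y) θ)) m,
      sum_range_succ (fun θ => s.indicator (1 : (ℤ → Bool) → ℝ≥0∞) (conf y θ)) m, h2]
    simp only [h1]

theorem U_shift_pre (m : ℕ) (y : ℤ → Bool) (h : Per m y) (s : Set (ℤ → Bool)) :
    U m y (shift ⁻¹' s) = U m y s := by
  rw [← U_shift m y h s, U_apply, U_apply]
  congr 1
  refine sum_congr rfl fun θ _ => ?_
  rw [← shift_conf]
  rfl

/-- The configuration with ones exactly at the residues `0` and `q` modulo `3q`. -/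
def xq (q : ℕ) : ℤ → Bool := fun i => decide (i % (3 * q : ℕ) = 0 ∨ i % (3 * q : ℕ) = q)

theorem xq_per (q : ℕ) : Per (3 * q) (xq q) := by
  intro i
  simp only [xq, Int.add_emod_right]

theorem xq_step {s : ℕ} : F^[2 ^ s] (xq (2 ^ s)) = shift^[2 * 2 ^ s] (xq (2 ^ s)) := by
  funext i
  rw [F_pow_two, shift_iter_apply]
  set q : ℕ := 2 ^ s with hq
  have hq0 : 0 < q := by positivity
  have e1 : ((2 : ℤ) ^ s) = (q : ℤ) := by rw [hq]; push_cast; rfl
  rw [e1]
  have hm : (0 : ℤ) < ((3 * q : ℕ) : ℤ) := by push_cast; positivity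
  obtain ⟨c, r, hr0, hr1, hi⟩ : ∃ c r : ℤ, 0 ≤ r ∧ r < ((3 * q : ℕ) : ℤ) ∧
      i = r + ((3 * q : ℕ) : ℤ) * c :=
    ⟨i / ((3 * q : ℕ) : ℤ), i % ((3 * q : ℕ) : ℤ), Int.emod_nonneg _ hm.ne', Int.emod_lt_of_pos _ hm,
      (Int.emod_add_mul_ediv i _).symm⟩
  subst hi
  have key : ∀ u v : ℤ, 0 ≤ v → v < ((3 * q : ℕ) : ℤ) → u = v →
      ∀ c : ℤ, (u + ((3 * q : ℕ) : ℤ) * c) % ((3 * q : ℕ) : ℤ) = v := by
    rintro u v h0 h1 rfl c
    rw [Int.add_mul_emod_self_left, Int.emod_eq_of_lt h0 h1]
  simp only [xq]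
  rw [key r r hr0 hr1 rfl c]
  push_cast at hr1
  by_cases h1 : r < 2 * q
  · rw [show r + ((3 * q : ℕ) : ℤ) * c + (q : ℤ) = (r + q) + ((3 * q : ℕ) : ℤ) * c by ring,
      key (r + q) (r + q) (by omega) (by push_cast; omega) rfl c]
    by_cases h2 : r < q
    · rw [show r + ((3 * q : ℕ) : ℤ) * c + ((2 * q : ℕ) : ℤ) =
        (r + 2 * q) + ((3 * q : ℕ) : ℤ) * c by push_cast; ring,
        key (r + 2 * q) (r + 2 * q) (by omega) (by push_cast; omega) rfl c]
      by_cases h3 : r = 0
      · subst h3; simp; omega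
      · have e2 : ¬ (r = 0 ∨ r = (q : ℤ)) := by omega
        have e3 : ¬ (r + q = 0 ∨ r + q = (q : ℤ)) := by omega
        have e4 : ¬ (r + 2 * q = 0 ∨ r + 2 * q = (q : ℤ)) := by omega
        rw [decide_eq_false e2, decide_eq_false e3, decide_eq_false e4]; rfl
    · rw [show r + ((3 * q : ℕ) : ℤ) * c + ((2 * q : ℕ) : ℤ) =
        (r - q) + ((3 * q : ℕ) : ℤ) * (c + 1) by push_cast; ring,
        key (r - q) (r - q) (by omega) (by push_cast; omega) rfl (c + 1)]
      by_cases h3 : r = q
      · have e2 : (r = 0 ∨ r = (q : ℤ)) := by omega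
        have e3 : ¬ (r + q = 0 ∨ r + q = (q : ℤ)) := by omega
        have e4 : (r - q = 0 ∨ r - q = (q : ℤ)) := by omega
        rw [decide_eq_true e2, decide_eq_false e3, decide_eq_true e4]; rfl
      · have e2 : ¬ (r = 0 ∨ r = (q : ℤ)) := by omega
        have e3 : ¬ (r + q = 0 ∨ r + q = (q : ℤ)) := by omega
        have e4 : ¬ (r - q = 0 ∨ r - q = (q : ℤ)) := by omega
        rw [decide_eq_false e2, decide_eq_false e3, decide_eq_false e4]; rfl
  · rw [show r + ((3 * q : ℕ) : ℤ) * c + (q : ℤ) = (r - 2 * q) + ((3 * q : ℕ) : ℤ) * (c + 1) by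
      push_cast; ring,
      key (r - 2 * q) (r - 2 * q) (by omega) (by push_cast; omega) rfl (c + 1),
      show r + ((3 * q : ℕ) : ℤ) * c + ((2 * q : ℕ) : ℤ) =
        (r - q) + ((3 * q : ℕ) : ℤ) * (c + 1) by push_cast; ring,
        key (r - q) (r - q) (by omega) (by push_cast; omega) rfl (c + 1)]
    by_cases h3 : r = 2 * q
    · have e2 : ¬ (r = 0 ∨ r = (q : ℤ)) := by omega
      have e3 : (r - 2 * q = 0 ∨ r - 2 * q = (q : ℤ)) := by omega
      have e4 : (r - q = 0 ∨ r - q = (q : ℤ)) := by omega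
      rw [decide_eq_false e2, decide_eq_true e3, decide_eq_true e4]; rfl
    · have e2 : ¬ (r = 0 ∨ r = (q : ℤ)) := by omega
      have e3 : ¬ (r - 2 * q = 0 ∨ r - 2 * q = (q : ℤ)) := by omega
      have e4 : ¬ (r - q = 0 ∨ r - q = (q : ℤ)) := by omega
      rw [decide_eq_false e2, decide_eq_false e3, decide_eq_false e4]; rfl

theorem xq_iter (s j : ℕ) :
    F^[2 ^ s * j] (xq (2 ^ s)) = shift^[2 * 2 ^ s * j] (xq (2 ^ s)) := by
  induction j with
  | zero => rfl
  | succ j ih =>
    rw [Nat.mul_succ, Function.iterate_add_apply, xq_step, Fn_shift_iter, ih,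
      ← Function.iterate_add_apply]
    rw [show 2 * 2 ^ s + 2 * 2 ^ s * j = 2 * 2 ^ s * (j + 1) by ring]

theorem xq_all (s n : ℕ) : F^[n] (xq (2 ^ s)) =
    shift^[2 * 2 ^ s * (n / 2 ^ s)] (F^[n % 2 ^ s] (xq (2 ^ s))) := by
  rw [← Fn_shift_iter, ← xq_iter, ← Function.iterate_add_apply, Nat.mod_add_div]

theorem U_shift_iter (m k : ℕ) (y : ℤ → Bool) (h : Per m y) (s : Set (ℤ → Bool)) :
    U m (shift^[k] y) s = U m y s := by
  induction k generalizing y with
  | zero => rfl
  | succ k ih => rw [Function.iterate_succ_apply, ih _ h.shf, U_shift m y h]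

theorem U_all (s n : ℕ) (S : Set (ℤ → Bool)) : U (3 * 2 ^ s) (F^[n] (xq (2 ^ s))) S =
    U (3 * 2 ^ s) (F^[n % 2 ^ s] (xq (2 ^ s))) S := by
  rw [xq_all, U_shift_iter _ _ _ ((xq_per _).mapn _)]

end Pool.Agent.X235.Xor
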