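import Pool.Agent.X235.Xor.Mix
import Pool.Agent.Helper446.Comp

set_option autoImplicit false

/-!
Computability of the mixtures.
-/

namespace Pool.Agent.X235.Xor

open MeasureTheory Finset Encodable
open Pool.Agent.Helper446

/-- The initial measure of a mixture. -/
def N0 : ℕ → ℕ := fun _ => 0

theorem mem_cyl_iff (x : ℤ → Bool) (w : List Bool) :
    x ∈ cyl w ↔ ∀ i < w.length, w[i]? = some (x i) := by
  unfold cyl
  show (∀ i : Fin w.length, x (i.1 : ℤ) = w.get i) ↔ _
  constructor
  · intro h i hi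
    have h1 := h ⟨i, hi⟩
    simp only [List.get_eq_getElem] at h1
    rw [h1, List.getElem?_eq_getElem hi]
  · intro h i
    have h1 := h i.1 i.2
    rw [List.getElem?_eq_getElem i.2] at h1
    simp only [List.get_eq_getElem]
    exact (Option.some.inj h1).symm

theorem zero_mem_cyl (w : List Bool) : zero ∈ cyl w ↔ ∀ i < w.length, w[i]? = some false :=
  mem_cyl_iff _ _

/-- The number of translates by fewer than `3 q` for which position `i` carries a one. -/
theorem card_ones (q : ℕ) (i : ℤ) :
    ((range (3 * q)).filter fun θ : ℕ => xq q (i - θ) = true).card ≤ 2 := by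
  have key : ∀ c : ℤ, ((range (3 * q)).filter fun θ : ℕ => (i - θ) % (3 * q : ℕ) = c).card ≤ 1 := by
    intro c
    rw [card_le_one]
    intro θ h1 θ' h2
    rw [mem_filter, mem_range] at h1 h2
    have h3 : (i - θ) ≡ (i - θ') [ZMOD (3 * q : ℕ)] := h1.2.trans h2.2.symm
    have h4 : (θ : ℤ) ≡ θ' [ZMOD (3 * q : ℕ)] := by
      have := Int.ModEq.sub (Int.ModEq.refl i (n := ((3 * q : ℕ) : ℤ))) h3
      simpa using this
    have h5 : θ ≡ θ' [MOD (3 * q)] := (Int.natCast_modEq_iff).1 h4
    exact h5.eq_of_lt_of_lt h1.1 h2.1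
  have hsub : ((range (3 * q)).filter fun θ : ℕ => xq q (i - θ) = true) ⊆
      ((range (3 * q)).filter fun θ : ℕ => (i - θ) % (3 * q : ℕ) = 0) ∪
      ((range (3 * q)).filter fun θ : ℕ => (i - θ) % (3 * q : ℕ) = q) := by
    intro θ hθ
    rw [mem_filter] at hθ
    simp only [xq, decide_eq_true_eq] at hθ
    rw [mem_union, mem_filter, mem_filter]
    rcases hθ with ⟨h1, h2 | h2⟩
    · exact Or.inl ⟨h1, h2⟩
    · exact Or.inr ⟨h1, h2⟩
  refine (card_le_card hsub).trans ((card_union_le _ _).trans ?_)
  have h1 := key 0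
  have h2 := key q
  omega

theorem card_window (q : ℕ) (l : ℕ) :
    ((range (3 * q)).filter fun θ : ℕ => ∃ i < l, xq q ((i : ℤ) - θ) = true).card ≤ 2 * l := by
  classical
  have hsub : ((range (3 * q)).filter fun θ : ℕ => ∃ i < l, xq q ((i : ℤ) - θ) = true) ⊆
      (range l).biUnion fun i => (range (3 * q)).filter fun θ : ℕ => xq q ((i : ℤ) - θ) = true := by
    intro θ hθ
    rw [mem_filter] at hθ
    obtain ⟨h1, i, hi, h2⟩ := hθ
    rw [mem_biUnion]
    exact ⟨i, mem_range.2 hi, by rw [mem_filter]; exact ⟨h1, h2⟩⟩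
  refine (card_le_card hsub).trans (card_biUnion_le.trans ?_)
  have h : ∑ i ∈ range l, ((range (3 * q)).filter fun θ : ℕ => xq q ((i : ℤ) - θ) = true).card ≤
      ∑ _i ∈ range l, 2 := sum_le_sum fun i _ => card_ones q (i : ℤ)
  refine h.trans ?_
  simp [mul_comm]

theorem val_diff (w : List Bool) (a b : ℕ) :
    |val N0 w none - val N0 w (some (a, b))| ≤ (w.length : ℝ) * (1 / 2 : ℝ) ^ (a + b) := by
  classical
  have hA : (0 : ℝ) < (1 / 2 : ℝ) ^ a := by positivity
  have hB : (0 : ℝ) < (2 : ℝ) ^ b := by positivity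
  have hc : (cnt N0 b w : ℝ) / (3 * 2 ^ b) ≤ 1 := by
    rw [div_le_one (by positivity)]
    have : cnt N0 b w ≤ 3 * 2 ^ b := by
      unfold cnt
      exact (card_filter_le _ _).trans (by simp)
    exact_mod_cast this
  have hc0 : 0 ≤ (cnt N0 b w : ℝ) / (3 * 2 ^ b) := by positivity
  have key : |dl w - (cnt N0 b w : ℝ) / (3 * 2 ^ b)| ≤ (w.length : ℝ) / 2 ^ b := by
    have hw := card_window (2 ^ b) w.length
    unfold dl
    by_cases hz : zero ∈ cyl w
    · rw [if_pos hz]
      have h1 : 3 * 2 ^ b ≤ cnt N0 b w + 2 * w.length := by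
        have h2 : (range (3 * 2 ^ b)).card =
            ((range (3 * 2 ^ b)).filter fun θ => conf (F^[N0 b] (xq (2 ^ b))) θ ∈ cyl w).card +
            ((range (3 * 2 ^ b)).filter fun θ => ¬ conf (F^[N0 b] (xq (2 ^ b))) θ ∈ cyl w).card :=
          (card_filter_add_card_filter_not _).symm
        rw [card_range] at h2
        have h3 : ((range (3 * 2 ^ b)).filter fun θ => ¬ conf (F^[N0 b] (xq (2 ^ b))) θ ∈ cyl w) ⊆
            ((range (3 * 2 ^ b)).filter fun θ : ℕ =>
              ∃ i < w.length, xq (2 ^ b) ((i : ℤ) - θ) = true) := by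
          intro θ hθ
          rw [mem_filter] at hθ ⊢
          refine ⟨hθ.1, ?_⟩
          by_contra hcon
          push Not at hcon
          apply hθ.2
          rw [mem_cyl_iff]
          intro i hi
          rw [(zero_mem_cyl w).1 hz i hi]
          have := hcon i hi
          simp only [N0, Function.iterate_zero, id_eq, conf]
          rw [Bool.eq_false_iff.2 this]
        have h4 := card_le_card h3
        unfold cnt
        omega
      have h1' : (3 * 2 ^ b : ℝ) ≤ cnt N0 b w + 2 * w.length := by exact_mod_cast h1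
      rw [abs_of_nonneg (by linarith)]
      have hl : (0 : ℝ) ≤ w.length := Nat.cast_nonneg _
      have e1 : 1 - (cnt N0 b w : ℝ) / (3 * 2 ^ b) = (3 * 2 ^ b - cnt N0 b w) / (3 * 2 ^ b) := by
        field_simp
      rw [e1, div_le_div_iff₀ (by positivity) hB]
      nlinarith
    · rw [if_neg hz]
      have h1 : cnt N0 b w ≤ 2 * w.length := by
        refine le_trans (card_le_card ?_) hw
        intro θ hθ
        rw [mem_filter] at hθ ⊢
        refine ⟨hθ.1, ?_⟩
        by_contra hcon
        push Not at hcon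
        apply hz
        rw [zero_mem_cyl]
        intro i hi
        have h2 := (mem_cyl_iff _ _).1 hθ.2 i hi
        rw [h2]
        have := hcon i hi
        simp only [N0, Function.iterate_zero, id_eq, conf]
        rw [Bool.eq_false_iff.2 this]
      have h1' : (cnt N0 b w : ℝ) ≤ 2 * w.length := by exact_mod_cast h1
      rw [zero_sub, abs_neg, abs_of_nonneg hc0, div_le_div_iff₀ (by positivity) hB]
      have hl : (0 : ℝ) ≤ w.length := Nat.cast_nonneg _
      nlinarith
  have e : val N0 w none - val N0 w (some (a, b)) =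
      (1 / 2 : ℝ) ^ a * (dl w - (cnt N0 b w : ℝ) / (3 * 2 ^ b)) := by
    simp only [val]; ring
  rw [e, abs_mul, abs_of_pos hA]
  calc (1 / 2 : ℝ) ^ a * |dl w - (cnt N0 b w : ℝ) / (3 * 2 ^ b)|
      ≤ (1 / 2 : ℝ) ^ a * ((w.length : ℝ) / 2 ^ b) := mul_le_mul_of_nonneg_left key hA.le
    _ = (w.length : ℝ) * (1 / 2 : ℝ) ^ (a + b) := by
      rw [pow_add, one_div, inv_pow, inv_pow]; ring

/-! ### Approximations to the limit data -/

/-- The first hit of `Q e` below `T`. -/
def fs (Q : ℕ → ℕ → Bool) (e : ℕ) : ℕ → Option ℕ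
  | 0 => none
  | T + 1 => if (fs Q e T).isSome then fs Q e T else if Q e T then some T else none

open Classical in
/-- The first hit of `Q e`. -/
noncomputable def lm (Q : ℕ → ℕ → Bool) (e : ℕ) : Option ℕ :=
  if h : ∃ t, Q e t = true then some (Nat.find h) else none

theorem fs_eq (Q : ℕ → ℕ → Bool) (e T : ℕ) :
    fs Q e T = match lm Q e with
      | none => none
      | some t => if t < T then some t else none := by
  classical
  unfold lm
  by_cases h : ∃ t, Q e t = true
  · rw [dif_pos h]
    simp only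
    induction T with
    | zero => simp [fs]
    | succ T ih =>
      rw [fs, ih]
      by_cases h1 : Nat.find h < T
      · simp only [if_pos h1, Option.isSome_some, if_true]
        rw [if_pos (Nat.lt_succ_of_lt h1)]
      · rw [if_neg h1]
        simp only [Option.isSome_none, Bool.false_eq_true, if_false]
        by_cases h2 : Nat.find h = T
        · have h3 := Nat.find_spec h
          rw [h2] at h3
          rw [if_pos h3, if_pos (by omega), h2]
        · have h3 : ¬ Q e T = true := Nat.find_min h (by omega)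
          rw [if_neg h3, if_neg (by omega)]
  · rw [dif_neg h]
    simp only
    induction T with
    | zero => simp [fs]
    | succ T ih =>
      rw [fs, ih]
      simp only [Option.isSome_none, Bool.false_eq_true, if_false]
      rw [if_neg fun h1 => h ⟨T, h1⟩]

theorem computable_fs {Q : ℕ → ℕ → Bool} (hQ : Computable₂ Q) :
    Computable fun x : ℕ × ℕ => fs Q x.1 x.2 := by
  have h1 : Computable fun x : ℕ × ℕ => (Nat.rec (motive := fun _ => Option ℕ) none
      (fun T acc => if acc.isSome then acc else if Q x.1 T then some T else none) x.2 :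
      Option ℕ) := by
    refine Computable.nat_rec (f := fun x : ℕ × ℕ => x.2) (g := fun _ => none)
      (h := fun (x : ℕ × ℕ) (y : ℕ × Option ℕ) =>
        if y.2.isSome then y.2 else if Q x.1 y.1 then some y.1 else none)
      Computable.snd (Computable.const none) ?_
    have h2 : Computable fun z : (ℕ × ℕ) × (ℕ × Option ℕ) => Q z.1.1 z.2.1 :=
      hQ.comp (Computable.fst.comp Computable.fst) (Computable.fst.comp Computable.snd)
    refine (Computable.cond (c := fun z : (ℕ × ℕ) × (ℕ × Option ℕ) => z.2.2.isSome)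
      (f := fun z : (ℕ × ℕ) × (ℕ × Option ℕ) => z.2.2)
      (by fun_prop) (by fun_prop) (Computable.cond h2
        (f := fun z : (ℕ × ℕ) × (ℕ × Option ℕ) => some z.2.1)
        (by fun_prop) (Computable.const none))).of_eq ?_
    intro z
    show _ = if z.2.2.isSome = true then z.2.2 else if Q z.1.1 z.2.1 = true then some z.2.1 else none
    cases z.2.2.isSome <;> cases Q z.1.1 z.2.1 <;> rfl
  refine h1.of_eq fun x => ?_
  generalize x.2 = T
  induction T with
  | zero => rfl
  | succ T ih => simp only [fs]; rw [← ih]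

theorem computable_sum {α : Type} [Primcodable α] {f : α → ℕ → ℕ} (hf : Computable₂ f)
    {n : α → ℕ} (hn : Computable n) : Computable fun a => ∑ i ∈ range (n a), f a i := by
  have h1 : Computable fun a => (Nat.rec (motive := fun _ => ℕ) 0
      (fun i acc => acc + f a i) (n a) : ℕ) := by
    refine Computable.nat_rec (f := n) (g := fun _ => 0)
      (h := fun (a : α) (y : ℕ × ℕ) => y.2 + f a y.1) hn (Computable.const 0) ?_
    have h2 : Computable fun z : α × (ℕ × ℕ) => f z.1 z.2.1 :=
      hf.comp Computable.fst (Computable.fst.comp Computable.snd)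
    have h3 : Computable fun z : α × (ℕ × ℕ) => z.2.2 := by fun_prop
    exact Primrec.nat_add.to_comp.comp h3 h2
  refine h1.of_eq fun a => ?_
  generalize n a = k
  induction k with
  | zero => rfl
  | succ k ih => rw [sum_range_succ, ← ih]

/-- The computable form of `xq`. -/
def xb (q i θ : ℕ) : Bool :=
  decide ((i + 3 * q - θ) % (3 * q) = 0 ∨ (i + 3 * q - θ) % (3 * q) = q)

theorem xb_eq {q i θ : ℕ} (h : θ < 3 * q) : xq q ((i : ℤ) - θ) = xb q i θ := by
  unfold xq xb
  have h1 : ((i : ℤ) - θ) % ((3 * q : ℕ) : ℤ) = (((i + 3 * q - θ) % (3 * q) : ℕ) : ℤ) := by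
    rw [Int.natCast_mod, Nat.cast_sub (by omega)]
    push_cast
    rw [show (i : ℤ) + 3 * q - θ = (i - θ) + 3 * q by ring, Int.add_emod_right]
  rw [h1]
  congr 1
  rw [eq_iff_iff]
  constructor
  · rintro (h | h)
    · left; exact_mod_cast h
    · right; exact_mod_cast h
  · rintro (h | h)
    · left; exact_mod_cast h
    · right; exact_mod_cast h

/-- Does the `θ`-th translate lie in the cylinder `w`? -/
def mt (b : ℕ) (w : List Bool) (θ : ℕ) : Bool :=
  RE.allB (fun i => decide (w[i]? = some (xb (2 ^ b) i θ))) w.length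

theorem mt_iff {b : ℕ} {w : List Bool} {θ : ℕ} (h : θ < 3 * 2 ^ b) :
    mt b w θ = true ↔ conf (F^[N0 b] (xq (2 ^ b))) θ ∈ cyl w := by
  unfold mt
  rw [RE.allB_iff, mem_cyl_iff]
  refine forall_congr' fun i => forall_congr' fun _ => ?_
  simp only [N0, Function.iterate_zero, id_eq, conf, decide_eq_true_eq]
  rw [xb_eq h]

/-- The computable count. -/
def cn (b : ℕ) (w : List Bool) : ℕ := ∑ θ ∈ range (3 * 2 ^ b), (mt b w θ).toNat

theorem cn_eq (b : ℕ) (w : List Bool) : cnt N0 b w = cn b w := by
  classical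
  unfold cnt cn
  rw [card_filter]
  refine sum_congr rfl fun θ hθ => ?_
  have h1 := mt_iff (w := w) (mem_range.1 hθ)
  by_cases h : conf (F^[N0 b] (xq (2 ^ b))) θ ∈ cyl w
  · rw [if_pos h, h1.2 h]; rfl
  · rw [if_neg h]
    have : mt b w θ = false := by
      rw [← Bool.not_eq_true]; exact fun h2 => h (h1.1 h2)
    rw [this]; rfl

@[fun_prop] theorem cpow2 {α : Type} [Primcodable α] {f : α → ℕ} (hf : Computable f) :
    Computable fun x => 2 ^ f x := by
  have h : Primrec fun n : ℕ => 2 ^ n := by
    have := Primrec.nat_rec₁ 1 (f := fun _ IH : ℕ => IH * 2)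
      (Primrec.nat_mul.comp Primrec.snd (Primrec.const 2))
    refine this.of_eq fun n => ?_
    induction n with
    | zero => rfl
    | succ n ih => rw [pow_succ, ← ih]
  exact h.to_comp.comp hf

@[fun_prop] theorem cmod {α : Type} [Primcodable α] {f g : α → ℕ} (hf : Computable f)
    (hg : Computable g) : Computable fun x => f x % g x := Primrec.nat_mod.to_comp.comp hf hg

@[fun_prop] theorem ctoNat {α : Type} [Primcodable α] {f : α → Bool} (hf : Computable f) :
    Computable fun x => (f x).toNat :=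
  (Primrec.dom_finite (fun b : Bool => b.toNat)).to_comp.comp hf

theorem computable_cn : Computable fun x : ℕ × List Bool => cn x.1 x.2 := by
  unfold cn
  refine computable_sum (f := fun (x : ℕ × List Bool) θ => (mt x.1 x.2 θ).toNat) ?_ (by fun_prop)
  have h1 : Computable fun z : (ℕ × List Bool) × ℕ => mt z.1.1 z.1.2 z.2 := by
    unfold mt
    refine RE.computable_allB (q := fun (z : (ℕ × List Bool) × ℕ) i =>
      decide (z.1.2[i]? = some (xb (2 ^ z.1.1) i z.2))) ?_ (by fun_prop)
    refine RE.cdecide (RE.cp_eq (by fun_prop) ?_)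
    have h2 : Computable fun y : ((ℕ × List Bool) × ℕ) × ℕ => xb (2 ^ y.1.1.1) y.2 y.1.2 := by
      unfold xb
      have h3 : Computable fun y : ((ℕ × List Bool) × ℕ) × ℕ =>
          (y.2 + 3 * 2 ^ y.1.1.1 - y.1.2) % (3 * 2 ^ y.1.1.1) := by fun_prop
      have h4 := Computable.cond (RE.cdecide (RE.cp_eq h3 (Computable.const 0)))
        (Computable.const true) (RE.cdecide (RE.cp_eq h3
          (g := fun y : ((ℕ × List Bool) × ℕ) × ℕ => 2 ^ y.1.1.1) (by fun_prop)))
      refine h4.of_eq fun y => ?_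
      rw [Bool.decide_or]
      cases decide ((y.2 + 3 * 2 ^ y.1.1.1 - y.1.2) % (3 * 2 ^ y.1.1.1) = 0) <;> rfl
    fun_prop
  show Computable fun z : (ℕ × List Bool) × ℕ => (mt z.1.1 z.1.2 z.2).toNat
  fun_prop

/-- The word `w` consists of zeros only. -/
def az (w : List Bool) : Bool := RE.allB (fun i => decide (w[i]? = some false)) w.length

theorem dl_eq (w : List Bool) : dl w = ((az w).toNat : ℝ) := by
  classical
  unfold dl
  have h : az w = true ↔ zero ∈ cyl w := by
    unfold az
    rw [RE.allB_iff, zero_mem_cyl]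
    simp
  by_cases h1 : zero ∈ cyl w
  · rw [if_pos h1, h.2 h1]; simp
  · rw [if_neg h1]
    have : az w = false := by rw [← Bool.not_eq_true]; exact fun h2 => h1 (h.1 h2)
    rw [this]; simp

theorem computable_az : Computable az := by
  unfold az
  refine RE.computable_allB (q := fun (w : List Bool) i => decide (w[i]? = some false)) ?_
    (by fun_prop)
  exact RE.cdecide (RE.cp_eq (by fun_prop) (by fun_prop))

/-- Numerator and denominator of a component value. -/
def nd (w : List Bool) (o : Option (ℕ × ℕ)) : ℕ × ℕ :=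
  o.elim ((az w).toNat, 1) fun p =>
    (cn p.2 w + (2 ^ p.1 - 1) * (3 * 2 ^ p.2) * (az w).toNat, 2 ^ p.1 * (3 * 2 ^ p.2))

theorem nd_eq (w : List Bool) (o : Option (ℕ × ℕ)) :
    val N0 w o = ((nd w o).1 : ℝ) / (nd w o).2 := by
  rcases o with _ | ⟨a, b⟩
  · simp [val, nd, dl_eq]
  · simp only [val, nd, dl_eq, Option.elim, cn_eq]
    have h1 : (1 : ℕ) ≤ 2 ^ a := Nat.one_le_two_pow
    push_cast [Nat.cast_sub h1]
    rw [one_div, inv_pow]
    field_simp

theorem nd_pos (w : List Bool) (o : Option (ℕ × ℕ)) : 0 < (nd w o).2 := by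
  rcases o with _ | ⟨a, b⟩
  · simp [nd]
  · simp only [nd, Option.elim]; positivity

theorem computable_nd : Computable fun x : List Bool × Option (ℕ × ℕ) => nd x.1 x.2 := by
  have haz : Computable fun x : List Bool × Option (ℕ × ℕ) => az x.1 :=
    computable_az.comp Computable.fst
  refine (Computable.option_casesOn (o := fun x : List Bool × Option (ℕ × ℕ) => x.2)
    (f := fun x => ((az x.1).toNat, 1))
    (g := fun x p => (cn p.2 x.1 + (2 ^ p.1 - 1) * (3 * 2 ^ p.2) * (az x.1).toNat,
      2 ^ p.1 * (3 * 2 ^ p.2))) Computable.snd (by fun_prop) ?_).of_eq ?_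
  · have h1 : Computable fun z : (List Bool × Option (ℕ × ℕ)) × (ℕ × ℕ) => az z.1.1 :=
      computable_az.comp (Computable.fst.comp Computable.fst)
    have h2 : Computable fun z : (List Bool × Option (ℕ × ℕ)) × (ℕ × ℕ) => cn z.2.2 z.1.1 :=
      computable_cn.comp (f := fun x : ℕ × List Bool => cn x.1 x.2)
        (g := fun z : (List Bool × Option (ℕ × ℕ)) × (ℕ × ℕ) => (z.2.2, z.1.1)) (by fun_prop)
    show Computable fun z : (List Bool × Option (ℕ × ℕ)) × (ℕ × ℕ) =>
      (cn z.2.2 z.1.1 + (2 ^ z.2.1 - 1) * (3 * 2 ^ z.2.2) * (az z.1.1).toNat,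
        2 ^ z.2.1 * (3 * 2 ^ z.2.2))
    fun_prop
  · intro x
    rcases x.2 with _ | p <;> rfl

/-- Partial sums as fractions. -/
def ps (w : List Bool) (d : ℕ → Option (ℕ × ℕ)) : ℕ → ℕ × ℕ
  | 0 => (0, 1)
  | e + 1 => ((ps w d e).1 * ((nd w (d e)).2 * 2 ^ (e + 1)) + (nd w (d e)).1 * (ps w d e).2,
      (ps w d e).2 * ((nd w (d e)).2 * 2 ^ (e + 1)))

theorem ps_pos (w : List Bool) (d : ℕ → Option (ℕ × ℕ)) (T : ℕ) : 0 < (ps w d T).2 := by
  induction T with
  | zero => simp [ps]
  | succ T ih =>
    simp only [ps]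
    have := nd_pos w (d T)
    positivity

theorem ps_eq (w : List Bool) (d : ℕ → Option (ℕ × ℕ)) (T : ℕ) :
    ((ps w d T).1 : ℝ) / (ps w d T).2 = ∑ e ∈ range T, (1 / 2 : ℝ) ^ (e + 1) * val N0 w (d e) := by
  induction T with
  | zero => simp [ps]
  | succ T ih =>
    rw [sum_range_succ, ← ih, nd_eq]
    simp only [ps]
    have h1 : ((ps w d T).2 : ℝ) ≠ 0 := by exact_mod_cast (ps_pos w d T).ne'
    have h2 : ((nd w (d T)).2 : ℝ) ≠ 0 := by exact_mod_cast (nd_pos w (d T)).ne'
    push_cast
    rw [one_div, inv_pow]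
    field_simp

end Pool.Agent.X235.Xor
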