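import Pool.Agent.X235.Xor.Cmp

set_option autoImplicit false

/-!
The mixtures are computable measures.
-/

namespace Pool.Agent.X235.Xor

open MeasureTheory Finset Encodable
open Pool.Agent.Helper446

/-- The limit data of a mixture. -/
noncomputable def DD (Q : ℕ → ℕ → Bool) (a b : ℕ → ℕ → ℕ) (e : ℕ) : Option (ℕ × ℕ) :=
  (lm Q e).map fun t => (a e t, b e t)

/-- The stage `T` approximation. -/
def DS (Q : ℕ → ℕ → Bool) (a b : ℕ → ℕ → ℕ) (T e : ℕ) : Option (ℕ × ℕ) :=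
  (fs Q e T).map fun t => (a e t, b e t)

theorem DS_diff {Q : ℕ → ℕ → Bool} {a b : ℕ → ℕ → ℕ} (hab : ∀ e t, t ≤ a e t + b e t)
    (w : List Bool) (T e : ℕ) :
    |val N0 w (DD Q a b e) - val N0 w (DS Q a b T e)| ≤ (w.length : ℝ) * (1 / 2 : ℝ) ^ T := by
  have h0 : 0 ≤ (w.length : ℝ) * (1 / 2 : ℝ) ^ T := by positivity
  unfold DD DS
  rw [fs_eq]
  rcases lm Q e with _ | t
  · simp; try exact h0
  · simp only [Option.map_some]
    by_cases h : t < T
    · rw [if_pos h]; simp; try exact h0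
    · rw [if_neg h]
      simp only [Option.map_none]
      rw [abs_sub_comm]
      refine (val_diff w _ _).trans ?_
      refine mul_le_mul_of_nonneg_left ?_ (Nat.cast_nonneg _)
      refine pow_le_pow_of_le_one (by norm_num) (by norm_num) ?_
      have := hab e t
      omega

theorem tail_bound (D : ℕ → Option (ℕ × ℕ)) (w : List Bool) (T : ℕ) :
    |∑' e, (1 / 2 : ℝ) ^ (e + 1) * val N0 w (D e) -
      ∑ e ∈ range T, (1 / 2 : ℝ) ^ (e + 1) * val N0 w (D e)| ≤ (1 / 2 : ℝ) ^ T := by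
  have hs := summable_M D N0 w
  rw [← hs.sum_add_tsum_nat_add T, add_sub_cancel_left]
  have hs2 := (summable_nat_add_iff T).2 hs
  have hs3 : Summable fun e : ℕ => (1 / 2 : ℝ) ^ (e + T + 1) :=
    (summable_nat_add_iff T).2 summable_two
  rw [abs_of_nonneg (tsum_nonneg fun e => mul_nonneg (by positivity) (val_nonneg _ _ _))]
  refine (hs2.tsum_le_tsum (fun e => mul_le_of_le_one_right (by positivity)
    (val_le_one _ _ _)) hs3).trans ?_
  have h1 : ∀ e : ℕ, (1 / 2 : ℝ) ^ (e + T + 1) = (1 / 2 : ℝ) ^ T * (1 / 2) * (1 / 2 : ℝ) ^ e := by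
    intro e; rw [pow_succ, pow_add]; ring
  simp only [h1]
  rw [tsum_mul_left, tsum_geometric_of_lt_one (by norm_num) (by norm_num)]
  apply le_of_eq
  ring

theorem succ_le_two_pow' (n : ℕ) : n + 1 ≤ 2 ^ n := Nat.lt_two_pow_self

theorem M_computable {Q : ℕ → ℕ → Bool} {a b : ℕ → ℕ → ℕ} (hQ : Computable₂ Q)
    (ha : Computable₂ a) (hb : Computable₂ b) (hab : ∀ e t, t ≤ a e t + b e t) :
    ComputableMeasure (M (DD Q a b) N0) := by
  have hDS : Computable fun x : ℕ × ℕ => DS Q a b x.1 x.2 := by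
    unfold DS
    have h1 : Computable fun x : ℕ × ℕ => fs Q x.2 x.1 :=
      (computable_fs hQ).comp (f := fun x : ℕ × ℕ => fs Q x.1 x.2)
        (g := fun x : ℕ × ℕ => (x.2, x.1)) (by fun_prop)
    refine Computable.option_map h1 (g := fun (x : ℕ × ℕ) (t : ℕ) => (a x.2 t, b x.2 t)) ?_
    exact (ha.comp (Computable.snd.comp Computable.fst) Computable.snd).pair
      (hb.comp (Computable.snd.comp Computable.fst) Computable.snd)
  have hps : Computable fun x : List Bool × ℕ => ps x.1 (DS Q a b x.2) x.2 := by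
    have h1 : Computable fun x : List Bool × ℕ => (Nat.rec (motive := fun _ => ℕ × ℕ) (0, 1)
        (fun e acc => (acc.1 * ((nd x.1 (DS Q a b x.2 e)).2 * 2 ^ (e + 1)) +
          (nd x.1 (DS Q a b x.2 e)).1 * acc.2,
          acc.2 * ((nd x.1 (DS Q a b x.2 e)).2 * 2 ^ (e + 1)))) x.2 : ℕ × ℕ) := by
      refine Computable.nat_rec (f := fun x : List Bool × ℕ => x.2) (g := fun _ => (0, 1))
        (h := fun (x : List Bool × ℕ) (y : ℕ × (ℕ × ℕ)) =>
          (y.2.1 * ((nd x.1 (DS Q a b x.2 y.1)).2 * 2 ^ (y.1 + 1)) +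
          (nd x.1 (DS Q a b x.2 y.1)).1 * y.2.2,
          y.2.2 * ((nd x.1 (DS Q a b x.2 y.1)).2 * 2 ^ (y.1 + 1))))
        Computable.snd (Computable.const _) ?_
      have h2 : Computable fun z : (List Bool × ℕ) × (ℕ × (ℕ × ℕ)) => DS Q a b z.1.2 z.2.1 :=
        hDS.comp (f := fun x : ℕ × ℕ => DS Q a b x.1 x.2)
          (g := fun z : (List Bool × ℕ) × (ℕ × (ℕ × ℕ)) => (z.1.2, z.2.1)) (by fun_prop)
      have h3 : Computable fun z : (List Bool × ℕ) × (ℕ × (ℕ × ℕ)) =>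
          nd z.1.1 (DS Q a b z.1.2 z.2.1) :=
        computable_nd.comp (f := fun x : List Bool × Option (ℕ × ℕ) => nd x.1 x.2)
          (g := fun z : (List Bool × ℕ) × (ℕ × (ℕ × ℕ)) => (z.1.1, DS Q a b z.1.2 z.2.1))
          (by fun_prop)
      show Computable fun z : (List Bool × ℕ) × (ℕ × (ℕ × ℕ)) =>
          (z.2.2.1 * ((nd z.1.1 (DS Q a b z.1.2 z.2.1)).2 * 2 ^ (z.2.1 + 1)) +
          (nd z.1.1 (DS Q a b z.1.2 z.2.1)).1 * z.2.2.2,
          z.2.2.2 * ((nd z.1.1 (DS Q a b z.1.2 z.2.1)).2 * 2 ^ (z.2.1 + 1)))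
      fun_prop
    refine h1.of_eq fun x => ?_
    have h2 : ∀ T, (Nat.rec (motive := fun _ => ℕ × ℕ) (0, 1)
        (fun e acc => (acc.1 * ((nd x.1 (DS Q a b x.2 e)).2 * 2 ^ (e + 1)) +
          (nd x.1 (DS Q a b x.2 e)).1 * acc.2,
          acc.2 * ((nd x.1 (DS Q a b x.2 e)).2 * 2 ^ (e + 1)))) T : ℕ × ℕ) =
        ps x.1 (DS Q a b x.2) T := by
      intro T
      induction T with
      | zero => rfl
      | succ T ih => simp only [ps]; rw [← ih]
    exact h2 _
  refine ⟨fun x => ((ps x.1 (DS Q a b (x.2 + x.1.length)) (x.2 + x.1.length)).1,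
    (ps x.1 (DS Q a b (x.2 + x.1.length)) (x.2 + x.1.length)).2 - 1), ?_, fun w k => ?_⟩
  · have h1 : Computable fun x : List Bool × ℕ =>
        ps x.1 (DS Q a b (x.2 + x.1.length)) (x.2 + x.1.length) :=
      hps.comp (f := fun x : List Bool × ℕ => ps x.1 (DS Q a b x.2) x.2)
        (g := fun x : List Bool × ℕ => (x.1, x.2 + x.1.length)) (by fun_prop)
    fun_prop
  · set T := k + w.length with hT
    have hpos := ps_pos w (DS Q a b T) T
    have e1 : (((ps w (DS Q a b T) T).2 - 1 : ℕ) : ℝ) + 1 = (ps w (DS Q a b T) T).2 := by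
      rw [Nat.cast_sub hpos]; simp
    show |(M (DD Q a b) N0 (cyl w)).toReal - ((ps w (DS Q a b T) T).1 : ℝ) /
      ((((ps w (DS Q a b T) T).2 - 1 : ℕ) : ℝ) + 1)| ≤ _
    rw [e1, ps_eq, M_toReal]
    have h1 := tail_bound (DD Q a b) w T
    have h2 : |∑ e ∈ range T, (1 / 2 : ℝ) ^ (e + 1) * val N0 w (DD Q a b e) -
        ∑ e ∈ range T, (1 / 2 : ℝ) ^ (e + 1) * val N0 w (DS Q a b T e)| ≤
        (w.length : ℝ) * (1 / 2 : ℝ) ^ T := by
      rw [← sum_sub_distrib]
      refine (abs_sum_le_sum_abs _ _).trans ?_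
      have h3 : ∀ e ∈ range T, |(1 / 2 : ℝ) ^ (e + 1) * val N0 w (DD Q a b e) -
          (1 / 2 : ℝ) ^ (e + 1) * val N0 w (DS Q a b T e)| ≤
          (1 / 2 : ℝ) ^ (e + 1) * ((w.length : ℝ) * (1 / 2 : ℝ) ^ T) := by
        intro e _
        rw [← mul_sub, abs_mul, abs_of_pos (by positivity : (0 : ℝ) < (1 / 2 : ℝ) ^ (e + 1))]
        exact mul_le_mul_of_nonneg_left (DS_diff hab w T e) (by positivity)
      refine (sum_le_sum h3).trans ?_
      rw [← sum_mul]
      refine mul_le_of_le_one_left (by positivity) ?_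
      have h4 := summable_two.sum_le_tsum (range T) (fun e _ => by positivity)
      refine h4.trans ?_
      have h5 : ∀ e : ℕ, (1 / 2 : ℝ) ^ (e + 1) = (1 / 2) * (1 / 2 : ℝ) ^ e := by
        intro e; rw [pow_succ]; ring
      simp only [h5]
      rw [tsum_mul_left, tsum_geometric_of_lt_one (by norm_num) (by norm_num)]
      norm_num
    have h3 : (1 / 2 : ℝ) ^ T + (w.length : ℝ) * (1 / 2 : ℝ) ^ T ≤ (1 / 2 : ℝ) ^ k := by
      rw [hT, pow_add]
      have h4 : ((w.length : ℝ) + 1) ≤ 2 ^ w.length := by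
        exact_mod_cast succ_le_two_pow' w.length
      have h5 : ((w.length : ℝ) + 1) * (1 / 2 : ℝ) ^ w.length ≤ 1 := by
        rw [one_div, inv_pow, ← div_eq_mul_inv, div_le_one (by positivity)]; exact h4
      have h6 : (0 : ℝ) < (1 / 2 : ℝ) ^ k := by positivity
      nlinarith
    refine (abs_sub_le _ (∑ e ∈ range T, (1 / 2 : ℝ) ^ (e + 1) * val N0 w (DD Q a b e)) _).trans ?_
    linarith

end Pool.Agent.X235.Xor
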