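import Mathlib

set_option autoImplicit false

/-!
The two-neighbour XOR cellular automaton on `{0,1}^ℤ`: definitions.
-/

namespace Pool.Agent.X235.Xor

open MeasureTheory

/-- The two-neighbour XOR cellular automaton `F(x)_i = x_i + x_{i+1} mod 2`. -/
def F (x : ℤ → Bool) : ℤ → Bool := fun i => xor (x i) (x (i + 1))

/-- The shift `σ(x)_i = x_{i+1}`. -/
def shift (x : ℤ → Bool) : ℤ → Bool := fun i => x (i + 1)

/-- The cylinder `[w]` of all configurations `x` with `x_0 ⋯ x_{|w|-1} = w`. -/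
def cyl (w : List Bool) : Set (ℤ → Bool) := {x | ∀ i : Fin w.length, x (i.1 : ℤ) = w.get i}

/-- The measure `ν` is computable: some algorithm, given a word `w` and `k`, outputs a (nonnegative)
rational number `a / (b + 1)`, as the pair `(a, b)`, within `2^{-k}` of `ν([w])`. -/
def ComputableMeasure (ν : Measure (ℤ → Bool)) : Prop :=
  ∃ f : List Bool × ℕ → ℕ × ℕ, Computable f ∧ ∀ (w : List Bool) (k : ℕ),
    |(ν (cyl w)).toReal - ((f (w, k)).1 : ℝ) / (((f (w, k)).2 : ℝ) + 1)| ≤ (1 / 2 : ℝ) ^ k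

end Pool.Agent.X235.Xor
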