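import Pool.Agent.X235.Xor.Base

set_option autoImplicit false

/-!
Mixtures of periodic measures for the XOR automaton and their cylinder values.
-/

namespace Pool.Agent.X235.Xor

open MeasureTheory Finset
open scoped ENNReal

/-- One component of a mixture. -/
noncomputable def comp (N : ℕ → ℕ) : Option (ℕ × ℕ) → Measure (ℤ → Bool)
  | none => Measure.dirac zero
  | some p => ((2 : ℝ≥0∞) ^ p.1)⁻¹ • U (3 * 2 ^ p.2) (F^[N p.2] (xq (2 ^ p.2))) +
      (1 - ((2 : ℝ≥0∞) ^ p.1)⁻¹) • Measure.dirac zero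

/-- The mixture with weights `2^{-(e+1)}`. -/
noncomputable def M (D : ℕ → Option (ℕ × ℕ)) (N : ℕ → ℕ) : Measure (ℤ → Bool) :=
  Measure.sum fun e => ((2 : ℝ≥0∞) ^ (e + 1))⁻¹ • comp N (D e)

theorem dirac_pre {G : (ℤ → Bool) → ℤ → Bool} (hG : G zero = zero) (s : Set (ℤ → Bool)) :
    Measure.dirac zero (G ⁻¹' s) = Measure.dirac zero s := by
  rw [Measure.dirac_apply, Measure.dirac_apply]
  by_cases h : zero ∈ s
  · have h2 : zero ∈ G ⁻¹' s := by rw [Set.mem_preimage, hG]; exact h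
    rw [Set.indicator_of_mem h, Set.indicator_of_mem h2]
  · have h2 : zero ∉ G ⁻¹' s := by rw [Set.mem_preimage, hG]; exact h
    rw [Set.indicator_of_notMem h, Set.indicator_of_notMem h2]

theorem comp_F (N : ℕ → ℕ) (o : Option (ℕ × ℕ)) (n : ℕ) (s : Set (ℤ → Bool)) :
    comp N o (F^[n] ⁻¹' s) = comp (fun b => n + N b) o s := by
  rcases o with _ | ⟨a, b⟩
  · exact dirac_pre (Fn_zero n) s
  · simp only [comp, Measure.add_apply, Measure.smul_apply]
    rw [U_F, ← Function.iterate_add_apply]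
    rw [dirac_pre (Fn_zero n) s]

theorem comp_shift (N : ℕ → ℕ) (o : Option (ℕ × ℕ)) (s : Set (ℤ → Bool)) :
    comp N o (shift ⁻¹' s) = comp N o s := by
  rcases o with _ | ⟨a, b⟩
  · exact dirac_pre shift_zero s
  · simp only [comp, Measure.add_apply, Measure.smul_apply]
    rw [U_shift_pre _ _ ((xq_per _).mapn _)]
    rw [dirac_pre shift_zero s]

theorem M_apply (D : ℕ → Option (ℕ × ℕ)) (N : ℕ → ℕ) {s : Set (ℤ → Bool)}
    (hs : MeasurableSet s) :
    M D N s = ∑' e, ((2 : ℝ≥0∞) ^ (e + 1))⁻¹ * comp N (D e) s := by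
  rw [M, Measure.sum_apply _ hs]
  rfl

theorem M_map_F (D : ℕ → Option (ℕ × ℕ)) (N : ℕ → ℕ) (n : ℕ) :
    (M D N).map (F^[n]) = M D (fun b => n + N b) := by
  ext s hs
  rw [Measure.map_apply (measurable_Fn n) hs, M_apply _ _ hs,
    M_apply _ _ (measurable_Fn n hs)]
  simp only [comp_F]

theorem M_map_shift (D : ℕ → Option (ℕ × ℕ)) (N : ℕ → ℕ) :
    (M D N).map shift = M D N := by
  ext s hs
  rw [Measure.map_apply measurable_shift hs, M_apply _ _ hs,
    M_apply _ _ (measurable_shift hs)]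
  simp only [comp_shift]

theorem U_univ (m : ℕ) (hm : 0 < m) (y : ℤ → Bool) : U m y Set.univ = 1 := by
  rw [U_apply]
  simp only [Set.indicator_univ, Pi.one_apply, sum_const, card_range, nsmul_eq_mul, mul_one]
  exact ENNReal.inv_mul_cancel (by exact_mod_cast hm.ne') (ENNReal.natCast_ne_top m)

theorem inv_two_pow_le (a : ℕ) : ((2 : ℝ≥0∞) ^ a)⁻¹ ≤ 1 := by
  rw [ENNReal.inv_le_one]
  exact one_le_pow₀ (by norm_num)

theorem comp_univ (N : ℕ → ℕ) (o : Option (ℕ × ℕ)) : comp N o Set.univ = 1 := by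
  rcases o with _ | ⟨a, b⟩
  · simp [comp]
  · simp only [comp, Measure.add_apply, Measure.smul_apply, smul_eq_mul]
    rw [U_univ _ (by positivity)]
    simp only [measure_univ, mul_one]
    exact add_tsub_cancel_of_le (inv_two_pow_le a)

theorem comp_le_one (N : ℕ → ℕ) (o : Option (ℕ × ℕ)) (s : Set (ℤ → Bool)) : comp N o s ≤ 1 := by
  rw [← comp_univ N o]; exact measure_mono (Set.subset_univ _)

theorem M_prob (D : ℕ → Option (ℕ × ℕ)) (N : ℕ → ℕ) : IsProbabilityMeasure (M D N) := by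
  constructor
  rw [M_apply _ _ MeasurableSet.univ]
  simp only [comp_univ, mul_one]
  have h : ∀ e : ℕ, ((2 : ℝ≥0∞) ^ (e + 1))⁻¹ = (2⁻¹ : ℝ≥0∞) ^ (e + 1) := by
    intro e; rw [ENNReal.inv_pow]
  simp only [h]
  rw [ENNReal.tsum_geometric_add_one]
  rw [ENNReal.one_sub_inv_two, inv_inv]
  exact ENNReal.inv_mul_cancel (by norm_num) (by norm_num)

open Classical in
/-- The number of translates in a cylinder. -/
noncomputable def cnt (N : ℕ → ℕ) (b : ℕ) (w : List Bool) : ℕ :=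
  ((range (3 * 2 ^ b)).filter fun θ => conf (F^[N b] (xq (2 ^ b))) θ ∈ cyl w).card

open Classical in
/-- The mass of the zero configuration. -/
noncomputable def dl (w : List Bool) : ℝ := if zero ∈ cyl w then 1 else 0

/-- The real cylinder values of a component. -/
noncomputable def val (N : ℕ → ℕ) (w : List Bool) : Option (ℕ × ℕ) → ℝ
  | none => dl w
  | some p => (1 / 2 : ℝ) ^ p.1 * ((cnt N p.2 w : ℝ) / (3 * 2 ^ p.2)) +
      (1 - (1 / 2 : ℝ) ^ p.1) * dl w

theorem U_cyl (m : ℕ) (y : ℤ → Bool) (w : List Bool) [DecidablePred fun θ => conf y θ ∈ cyl w] :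
    U m y (cyl w) =
      (m : ℝ≥0∞)⁻¹ * (((range m).filter fun θ => conf y θ ∈ cyl w).card : ℝ≥0∞) := by
  rw [U_apply]
  congr 1
  rw [card_filter]
  push_cast
  refine sum_congr rfl fun θ _ => ?_
  by_cases h : conf y θ ∈ cyl w <;> simp [h]

theorem dirac_cyl (w : List Bool) : (Measure.dirac zero (cyl w)).toReal = dl w := by
  rw [Measure.dirac_apply]
  unfold dl
  by_cases h : zero ∈ cyl w <;> simp [h]

theorem comp_toReal (N : ℕ → ℕ) (o : Option (ℕ × ℕ)) (w : List Bool) :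
    (comp N o (cyl w)).toReal = val N w o := by
  classical
  rcases o with _ | ⟨a, b⟩
  · exact dirac_cyl w
  · simp only [comp, Measure.add_apply, Measure.smul_apply, smul_eq_mul, val]
    have h1 : ((2 : ℝ≥0∞) ^ a)⁻¹.toReal = (1 / 2 : ℝ) ^ a := by
      rw [ENNReal.toReal_inv, ENNReal.toReal_pow]; simp
    have h2 : (1 - ((2 : ℝ≥0∞) ^ a)⁻¹).toReal = 1 - (1 / 2 : ℝ) ^ a := by
      rw [ENNReal.toReal_sub_of_le (inv_two_pow_le a) (by norm_num), h1]; simp
    have hfin : ((2 : ℝ≥0∞) ^ a)⁻¹ ≠ ⊤ := ne_top_of_le_ne_top (by norm_num) (inv_two_pow_le a)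
    have hU : U (3 * 2 ^ b) (F^[N b] (xq (2 ^ b))) (cyl w) ≠ ⊤ := by
      refine ne_top_of_le_ne_top (b := 1) (by norm_num) ?_
      rw [← U_univ (3 * 2 ^ b) (by positivity) (F^[N b] (xq (2 ^ b)))]
      exact measure_mono (Set.subset_univ _)
    rw [ENNReal.toReal_add (ENNReal.mul_ne_top hfin hU)
      (ENNReal.mul_ne_top (by finiteness) (measure_ne_top _ _)), ENNReal.toReal_mul,
      ENNReal.toReal_mul, h1, h2, dirac_cyl, U_cyl]
    congr 2
    rw [ENNReal.toReal_mul, ENNReal.toReal_inv, ENNReal.toReal_natCast, ENNReal.toReal_natCast,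
      cnt]
    push_cast
    rw [div_eq_inv_mul]

theorem val_nonneg (N : ℕ → ℕ) (o : Option (ℕ × ℕ)) (w : List Bool) : 0 ≤ val N w o := by
  rw [← comp_toReal]; exact ENNReal.toReal_nonneg

theorem val_le_one (N : ℕ → ℕ) (o : Option (ℕ × ℕ)) (w : List Bool) : val N w o ≤ 1 := by
  rw [← comp_toReal]
  have := ENNReal.toReal_mono (b := 1) (by norm_num) (comp_le_one N o (cyl w))
  simpa using this

theorem M_toReal (D : ℕ → Option (ℕ × ℕ)) (N : ℕ → ℕ) (w : List Bool) :
    (M D N (cyl w)).toReal = ∑' e, (1 / 2 : ℝ) ^ (e + 1) * val N w (D e) := by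
  rw [M_apply _ _ (measurableSet_cyl w), ENNReal.tsum_toReal_eq]
  · refine tsum_congr fun e => ?_
    rw [ENNReal.toReal_mul, comp_toReal]
    congr 1
    rw [ENNReal.toReal_inv, ENNReal.toReal_pow]; simp
  · intro e
    refine ENNReal.mul_ne_top (by simp) (ne_top_of_le_ne_top (by norm_num) (comp_le_one N _ _))

theorem summable_two : Summable fun e : ℕ => (1 / 2 : ℝ) ^ (e + 1) :=
  (summable_nat_add_iff 1).2 (summable_geometric_of_lt_one (by norm_num) (by norm_num))

theorem summable_M (D : ℕ → Option (ℕ × ℕ)) (N : ℕ → ℕ) (w : List Bool) :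
    Summable fun e => (1 / 2 : ℝ) ^ (e + 1) * val N w (D e) := by
  refine Summable.of_nonneg_of_le (fun e => mul_nonneg (by positivity) (val_nonneg _ _ _))
    (fun e => ?_) summable_two
  exact mul_le_of_le_one_right (by positivity) (val_le_one _ _ _)

end Pool.Agent.X235.Xor
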