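import Pool.Agent.X235.Xor.Row
import Pool.Agent.X235.Xor.Cmp2

set_option autoImplicit false

/-!
A computable measure with a noncomputable limit point.
-/

namespace Pool.Agent.X235.Xor

open MeasureTheory Finset Encodable Filter Topology
open Pool.Agent.Helper446

/-- A c.e. set of natural numbers which is not computable, with a computable approximation. -/
theorem exists_Q : ∃ Q : ℕ → ℕ → Bool, Computable₂ Q ∧
    ¬ ComputablePred fun e => ∃ t, Q e t = true := by
  have h1 : REPred fun n : ℕ => ((Denumerable.ofNat Nat.Partrec.Code n).eval 0).Dom :=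
    RE.comp (ComputablePred.halting_problem_re 0) (Computable.ofNat Nat.Partrec.Code)
  obtain ⟨Q, hQ, h⟩ := RE.re_iff.1 h1
  refine ⟨Q, hQ, fun hc => ComputablePred.halting_problem 0 ?_⟩
  have h2 : ComputablePred fun c : Nat.Partrec.Code => ∃ t, Q (encode c) t = true :=
    RE.cp_comp hc Computable.encode
  have h3 : (fun c : Nat.Partrec.Code => ∃ t, Q (encode c) t = true) =
      fun c => (c.eval 0).Dom := by
    funext c
    rw [← h (encode c), Denumerable.ofNat_encode]
  rw [h3] at h2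
  exact h2

/-- The final rows. -/
def NI : ℕ → ℕ := fun b => 2 ^ b - 1

theorem val_ev (w : List Bool) (o : Option (ℕ × ℕ)) :
    ∀ᶠ k in atTop, val (fun _ => 2 ^ k - 1) w o = val NI w o := by
  rcases o with _ | ⟨a, b⟩
  · exact Eventually.of_forall fun _ => rfl
  · filter_upwards [eventually_ge_atTop b] with k hk
    rw [← comp_toReal, ← comp_toReal]
    simp only [comp, Measure.add_apply, Measure.smul_apply]
    rw [U_all b (2 ^ k - 1)]
    have : (2 ^ k - 1) % 2 ^ b = 2 ^ b - 1 := by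
      obtain ⟨c, rfl⟩ := Nat.exists_eq_add_of_le hk
      have h1 : 2 ^ (b + c) - 1 = (2 ^ b - 1) + 2 ^ b * (2 ^ c - 1) := by
        rw [pow_add, Nat.mul_sub]
        have h2 : 1 ≤ 2 ^ b := Nat.one_le_two_pow
        have h3 : 2 ^ b * 1 ≤ 2 ^ b * 2 ^ c := Nat.mul_le_mul_left _ Nat.one_le_two_pow
        omega
      rw [h1, Nat.add_mul_mod_self_left, Nat.mod_eq_of_lt]
      have h2 : 1 ≤ 2 ^ b := Nat.one_le_two_pow
      omega
    rw [this]
    rfl

theorem tendsto_M (D : ℕ → Option (ℕ × ℕ)) (w : List Bool) :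
    Tendsto (fun k : ℕ => ((M D N0).map (F^[2 ^ k - 1])) (cyl w)) atTop (𝓝 (M D NI (cyl w))) := by
  have := fun N => M_prob D N
  rw [← ENNReal.tendsto_toReal_iff]
  · simp only [M_map_F, M_toReal]
    refine tendsto_tsum_of_dominated_convergence (bound := fun e => (1 / 2 : ℝ) ^ (e + 1))
      summable_two (fun e => ?_) (Eventually.of_forall fun k e => ?_)
    · refine Tendsto.const_mul _ ?_
      refine tendsto_const_nhds.congr' ?_
      filter_upwards [val_ev w (D e)] with k hk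
      exact hk.symm
    · rw [Real.norm_of_nonneg (mul_nonneg (by positivity) (val_nonneg _ _ _))]
      exact mul_le_of_le_one_right (by positivity) (val_le_one _ _ _)
  · intro k
    rw [M_map_F]
    exact measure_ne_top _ _
  · exact measure_ne_top _ _

section noncomp

variable {Q : ℕ → ℕ → Bool}

theorem lm_isSome (Q : ℕ → ℕ → Bool) (e : ℕ) :
    (lm Q e).isSome = true ↔ ∃ t, Q e t = true := by
  unfold lm
  split_ifs with h <;> simp [h]

theorem fs_isSome (Q : ℕ → ℕ → Bool) (e T : ℕ) (h : (fs Q e T).isSome = true) :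
    (lm Q e).isSome = true := by
  rw [fs_eq] at h
  rcases hlm : lm Q e with _ | t
  · rw [hlm] at h; exact h
  · rfl

theorem fs_ev (Q : ℕ → ℕ → Bool) (e : ℕ) :
    ∀ᶠ T in atTop, (fs Q e T).isSome = (lm Q e).isSome := by
  rcases hlm : lm Q e with _ | t
  · refine Eventually.of_forall fun T => ?_
    rw [fs_eq, hlm]
  · filter_upwards [eventually_gt_atTop t] with T hT
    rw [fs_eq, hlm]
    simp [hT]

theorem NI_value (Q : ℕ → ℕ → Bool) :
    (M (DD Q (fun _ _ => 0) (fun _ t => t)) NI (cyl [true])).toReal =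
      (2 / 3) * ∑' e, (1 / 2 : ℝ) ^ (e + 1) * ((lm Q e).isSome.toNat : ℝ) := by
  rw [M_toReal, ← tsum_mul_left]
  refine tsum_congr fun e => ?_
  unfold DD
  have h0 : dl [true] = 0 := by
    unfold dl
    rw [if_neg]
    intro h
    have := (zero_mem_cyl _).1 h 0 (by simp)
    simp at this
  rcases lm Q e with _ | t
  · simp [val, h0]
  · simp only [Option.map_some, val, h0, mul_zero, add_zero, pow_zero, one_mul,
      Option.isSome_some, Bool.toNat_true, Nat.cast_one, mul_one]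
    have h1 : cnt NI t [true] = 2 * 2 ^ t := cnt_last t
    rw [h1]
    push_cast
    field_simp

/-- Partial sums. -/
noncomputable def pT (Q : ℕ → ℕ → Bool) (T : ℕ) : ℝ :=
  ∑ e ∈ range T, (1 / 2 : ℝ) ^ (e + 1) * ((fs Q e T).isSome.toNat : ℝ)

theorem summable_R (Q : ℕ → ℕ → Bool) :
    Summable fun e : ℕ => (1 / 2 : ℝ) ^ (e + 1) * ((lm Q e).isSome.toNat : ℝ) := by
  refine Summable.of_nonneg_of_le (fun e => by positivity) (fun e => ?_) summable_two
  refine mul_le_of_le_one_right (by positivity) ?_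
  cases (lm Q e).isSome <;> simp

theorem toNat_le {x y : Bool} (h : x = true → y = true) : (x.toNat : ℝ) ≤ (y.toNat : ℝ) := by
  cases x <;> cases y <;> simp_all

/-- An unseen element makes a gap. -/
theorem gap {n T : ℕ} (h1 : (fs Q n T).isSome = false) (h2 : (lm Q n).isSome = true) :
    pT Q T + (1 / 2 : ℝ) ^ (n + 1) ≤
      ∑' e, (1 / 2 : ℝ) ^ (e + 1) * ((lm Q e).isSome.toNat : ℝ) := by
  have h3 := (summable_R Q).sum_le_tsum (range T ∪ {n}) (fun e _ => by positivity)
  refine le_trans ?_ h3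
  have h4 : pT Q T = ∑ e ∈ (range T ∪ {n}) \ {n}, (1 / 2 : ℝ) ^ (e + 1) *
      (if e < T then ((fs Q e T).isSome.toNat : ℝ) else 0) := by
    unfold pT
    have h5 : ∑ e ∈ range T, (1 / 2 : ℝ) ^ (e + 1) * ((fs Q e T).isSome.toNat : ℝ) =
        ∑ e ∈ range T, (1 / 2 : ℝ) ^ (e + 1) *
          (if e < T then ((fs Q e T).isSome.toNat : ℝ) else 0) := by
      refine sum_congr rfl fun e he => ?_
      rw [if_pos (mem_range.1 he)]
    rw [h5]
    symm
    refine sum_subset_zero_on_sdiff ?_ ?_ (fun _ _ => rfl)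
    · intro e he
      rw [Finset.mem_sdiff, Finset.mem_union, mem_singleton] at he
      tauto
    · intro e he
      rw [Finset.mem_sdiff, Finset.mem_sdiff, Finset.mem_union, mem_singleton] at he
      have : e = n := by
        by_contra hne
        exact he.2 ⟨Or.inl he.1, hne⟩
      subst this
      rw [if_pos (mem_range.1 he.1), h1]; simp
  rw [h4, ← sum_sdiff (s₁ := {n}) (s₂ := range T ∪ {n}) (by simp)]
  refine add_le_add (sum_le_sum fun e _ => ?_) ?_
  · refine mul_le_mul_of_nonneg_left ?_ (by positivity)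
    split_ifs with h
    · exact toNat_le (fs_isSome Q e T)
    · positivity
  · simp [h2]

theorem pT_tendsto (Q : ℕ → ℕ → Bool) : Tendsto (pT Q) atTop
    (𝓝 (∑' e, (1 / 2 : ℝ) ^ (e + 1) * ((lm Q e).isSome.toNat : ℝ))) := by
  have h : ∀ T, pT Q T = ∑' e, (1 / 2 : ℝ) ^ (e + 1) *
      (if e < T then ((fs Q e T).isSome.toNat : ℝ) else 0) := by
    intro T
    rw [tsum_eq_sum (s := range T)]
    · refine sum_congr rfl fun e he => ?_
      rw [if_pos (mem_range.1 he)]
    · intro e he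
      rw [mem_range] at he
      rw [if_neg he, mul_zero]
  simp only [funext h]
  refine tendsto_tsum_of_dominated_convergence (bound := fun e => (1 / 2 : ℝ) ^ (e + 1))
      summable_two (fun e => ?_) (Eventually.of_forall fun T e => ?_)
  · refine Tendsto.const_mul _ ?_
    refine tendsto_const_nhds.congr' ?_
    filter_upwards [fs_ev Q e, eventually_gt_atTop e] with T h1 h2
    rw [if_pos h2, h1]
  · rw [Real.norm_of_nonneg (mul_nonneg (by positivity) (by positivity))]
    refine mul_le_of_le_one_right (by positivity) ?_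
    split_ifs
    · cases (fs Q e T).isSome <;> simp
    · norm_num

/-- Numerator of `pT`. -/
def pn (Q : ℕ → ℕ → Bool) (T : ℕ) : ℕ :=
  ∑ e ∈ range T, (fs Q e T).isSome.toNat * 2 ^ (T - 1 - e)

theorem pn_eq (Q : ℕ → ℕ → Bool) (T : ℕ) : pT Q T = (pn Q T : ℝ) / 2 ^ T := by
  unfold pT pn
  push_cast
  rw [sum_div]
  refine sum_congr rfl fun e he => ?_
  have he := mem_range.1 he
  have h1 : (2 : ℝ) ^ T = 2 ^ (T - 1 - e) * 2 ^ (e + 1) := by
    rw [← pow_add]; congr 1; omega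
  rw [h1, one_div, inv_pow]
  field_simp

theorem computable_pn (hQ : Computable₂ Q) : Computable (pn Q) := by
  unfold pn
  refine computable_sum (f := fun (T : ℕ) e => (fs Q e T).isSome.toNat * 2 ^ (T - 1 - e)) ?_
    Computable.id
  have h1 : Computable fun z : ℕ × ℕ => fs Q z.2 z.1 :=
    (computable_fs hQ).comp (f := fun x : ℕ × ℕ => fs Q x.1 x.2)
      (g := fun x : ℕ × ℕ => (x.2, x.1)) (by fun_prop)
  show Computable fun z : ℕ × ℕ => (fs Q z.2 z.1).isSome.toNat * 2 ^ (z.1 - 1 - z.2)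
  fun_prop

theorem not_comp (hQ : Computable₂ Q) (hK : ¬ ComputablePred fun e => ∃ t, Q e t = true) :
    ¬ ComputableMeasure (M (DD Q (fun _ _ => 0) (fun _ t => t)) NI) := by
  rintro ⟨f, hf, hfa⟩
  apply hK
  set R : ℝ := ∑' e, (1 / 2 : ℝ) ^ (e + 1) * ((lm Q e).isSome.toNat : ℝ) with hR
  have hre : REPred fun e => ∃ t, Q e t = true := by
    refine RE.exN (p := fun e t => Q e t = true) (RE.of_bool ?_)
    exact hQ
  refine RE.cp_of_re hre ?_
  have hA : REPred fun n : ℕ => ∃ x : ℕ × ℕ, (fs Q n x.1).isSome = false ∧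
      3 * ((f ([true], x.2)).1 * 2 ^ x.2 + ((f ([true], x.2)).2 + 1)) * 2 ^ x.1 * 2 ^ (n + 1) <
      2 * ((f ([true], x.2)).2 + 1) * 2 ^ x.2 * (pn Q x.1 * 2 ^ (n + 1) + 2 ^ x.1) := by
    refine RE.ex (p := fun (n : ℕ) (x : ℕ × ℕ) => (fs Q n x.1).isSome = false ∧
      3 * ((f ([true], x.2)).1 * 2 ^ x.2 + ((f ([true], x.2)).2 + 1)) * 2 ^ x.1 * 2 ^ (n + 1) <
      2 * ((f ([true], x.2)).2 + 1) * 2 ^ x.2 * (pn Q x.1 * 2 ^ (n + 1) + 2 ^ x.1)) ?_
    have h1 : Computable fun z : ℕ × (ℕ × ℕ) => fs Q z.1 z.2.1 :=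
      (computable_fs hQ).comp (f := fun x : ℕ × ℕ => fs Q x.1 x.2)
        (g := fun z : ℕ × (ℕ × ℕ) => (z.1, z.2.1)) (by fun_prop)
    have h2 : Computable fun z : ℕ × (ℕ × ℕ) => f ([true], z.2.2) :=
      hf.comp (g := fun z : ℕ × (ℕ × ℕ) => ([true], z.2.2)) (by fun_prop)
    have h3 : Computable fun z : ℕ × (ℕ × ℕ) => pn Q z.2.1 :=
      (computable_pn hQ).comp (g := fun z : ℕ × (ℕ × ℕ) => z.2.1) (by fun_prop)
    exact RE.and (RE.eq (by fun_prop) (by fun_prop)) (RE.lt (by fun_prop) (by fun_prop))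
  refine hA.of_eq fun n => ?_
  have hconv : ∀ T k : ℕ,
      (3 * ((f ([true], k)).1 * 2 ^ k + ((f ([true], k)).2 + 1)) * 2 ^ T * 2 ^ (n + 1) <
      2 * ((f ([true], k)).2 + 1) * 2 ^ k * (pn Q T * 2 ^ (n + 1) + 2 ^ T)) ↔
      (3 / 2 : ℝ) * (((f ([true], k)).1 : ℝ) / ((f ([true], k)).2 + 1) + (1 / 2) ^ k) <
        pT Q T + (1 / 2 : ℝ) ^ (n + 1) := by
    intro T k
    generalize (f ([true], k)).1 = A
    generalize (f ([true], k)).2 = B
    rw [pn_eq]
    generalize pn Q T = P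
    have e1 : (3 / 2 : ℝ) * ((A : ℝ) / (B + 1) + (1 / 2) ^ k) =
        ((3 * (A * 2 ^ k + (B + 1)) * 2 ^ T * 2 ^ (n + 1) : ℕ) : ℝ) /
          ((2 * (B + 1) * 2 ^ k * 2 ^ T * 2 ^ (n + 1) : ℕ) : ℝ) := by
      push_cast
      rw [one_div, inv_pow]
      field_simp
    have e2 : (P : ℝ) / 2 ^ T + (1 / 2 : ℝ) ^ (n + 1) =
        ((2 * (B + 1) * 2 ^ k * (P * 2 ^ (n + 1) + 2 ^ T) : ℕ) : ℝ) /
          ((2 * (B + 1) * 2 ^ k * 2 ^ T * 2 ^ (n + 1) : ℕ) : ℝ) := by
      push_cast
      rw [one_div, inv_pow]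
      field_simp
    rw [e1, e2, div_lt_div_iff_of_pos_right (by positivity), Nat.cast_lt]
  have hv := NI_value Q
  rw [← hR] at hv
  constructor
  · rintro ⟨⟨T, k⟩, h1, h2⟩ h3
    simp only at h1 h2
    rw [hconv] at h2
    have h4 := gap h1 ((lm_isSome Q n).2 h3)
    rw [← hR] at h4
    have h5 := hfa [true] k
    rw [hv, abs_le] at h5
    linarith [h5.1, h5.2]
  · intro h3
    have h4 : ∀ T, (fs Q n T).isSome = false := by
      intro T
      rw [← Bool.not_eq_true]
      intro h5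
      exact h3 ((lm_isSome Q n).1 (fs_isSome Q n T h5))
    have h5 : (0 : ℝ) < (1 / 2 : ℝ) ^ (n + 2) := by positivity
    have h6 := (pT_tendsto Q).eventually (lt_mem_nhds (sub_lt_self R h5))
    obtain ⟨T, hT⟩ := h6.exists
    obtain ⟨k, hk⟩ := exists_pow_lt_of_lt_one (by positivity : (0 : ℝ) < (1 / 2 : ℝ) ^ (n + 2) / 3)
      (by norm_num : (1 / 2 : ℝ) < 1)
    refine ⟨(T, k), h4 T, ?_⟩
    rw [hconv]
    have h7 := hfa [true] k
    rw [hv, abs_le] at h7
    have h8 : (1 / 2 : ℝ) ^ (n + 1) = 2 * (1 / 2 : ℝ) ^ (n + 2) := by ring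
    rw [h8]
    linarith [h7.1, h7.2]

end noncomp

end Pool.Agent.X235.Xor
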