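import Pool.Agent.X235.Xor.QOne

set_option autoImplicit false

/-!
A computable measure with a noncomputable `μ`-limit set.
-/

namespace Pool.Agent.X235.Xor

open MeasureTheory Finset Encodable Filter Topology
open Pool.Agent.Helper446

/-- The marker word `1 0^{q-1} 1 0^{2q-1} 1`. -/
def wq (q : ℕ) : List Bool := (List.range (3 * q + 1)).map fun i => decide (i = 0 ∨ i = q ∨ i = 3 * q)

theorem wq_length (q : ℕ) : (wq q).length = 3 * q + 1 := by simp [wq]

theorem mem_cyl_wq {q : ℕ} {y : ℤ → Bool} :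
    y ∈ cyl (wq q) ↔ ∀ i : ℕ, i ≤ 3 * q → y i = decide (i = 0 ∨ i = q ∨ i = 3 * q) := by
  rw [mem_cyl_iff, wq_length]
  refine forall_congr' fun i => ?_
  constructor
  · intro h hi
    have h1 := h (by omega)
    unfold wq at h1
    rw [List.getElem?_map, List.getElem?_range (by omega)] at h1
    exact (Option.some.inj h1).symm
  · intro h hi
    unfold wq
    rw [List.getElem?_map, List.getElem?_range hi, h (by omega)]
    rfl

/-- Spaced configurations stay spaced. -/
theorem sp_iter {a : ℕ} {u v : ℤ → Bool} (hu : ∀ i, u ((2 ^ a : ℕ) * i) = v i) (hs : Sp (2 ^ a) u)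
    (s : ℕ) : Sp (2 ^ a) (F^[2 ^ a * s] u) ∧
      ∀ i, (F^[2 ^ a * s] u) ((2 ^ a : ℕ) * i) = (F^[s] v) i := by
  induction s with
  | zero => exact ⟨hs, hu⟩
  | succ s ih =>
    obtain ⟨h1, h2⟩ := ih
    rw [Nat.mul_succ, Nat.add_comm, Function.iterate_add_apply, Function.iterate_succ_apply']
    constructor
    · intro i hi
      rw [F_pow_two] at hi
      rcases h : (F^[2 ^ a * s] u) i with _ | _
      · rw [h, Bool.false_xor] at hi
        have h3 := h1 _ hi
        have h4 : ((2 ^ a : ℕ) : ℤ) ∣ (2 ^ a : ℤ) := by push_cast; exact dvd_refl _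
        exact (dvd_add_left h4).1 h3
      · exact h1 _ h
    · intro i
      rw [F_pow_two, F, ← h2 i, ← h2 (i + 1)]
      congr 2
      push_cast; ring

/-- The pattern `1101` does not occur in rows of spaced configurations. -/
theorem no1101 {u : ℤ → Bool} (hu : Sp 2 u) (s : ℕ) (c : ℤ) :
    ¬ ((F^[s] u) (c - 1) = true ∧ (F^[s] u) c = true ∧ (F^[s] u) (c + 1) = false ∧
      (F^[s] u) (c + 2) = true) := by
  rintro ⟨h1, h2, h3, h4⟩
  have key : ∀ t, Sp 2 (F^[2 * t] u) := by
    intro t
    have := (sp_iter (a := 1) (u := u) (v := fun i => u (2 * i)) (fun i => rfl) hu t).1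
    exact this
  obtain ⟨t, ht | ht⟩ := Nat.even_or_odd' s
  · rw [ht] at h1 h2
    have e1 := key t _ h1
    have e2 := key t _ h2
    omega
  · rw [ht, Function.iterate_succ_apply'] at h1 h2 h3 h4
    set v := F^[2 * t] u with hv
    have hz : ∀ i : ℤ, ¬ (2 : ℤ) ∣ i → v i = false := by
      intro i hi
      rw [← Bool.not_eq_true]
      exact fun h => hi (key t i h)
    simp only [F] at h1 h2 h3 h4
    rcases Int.even_or_odd c with hc | hc
    · have h5 : v (c + 1) = false := hz _ (by obtain ⟨d, rfl⟩ := hc; omega)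
      have h6 : v (c + 2 + 1) = false := hz _ (by obtain ⟨d, rfl⟩ := hc; omega)
      rw [h5, Bool.false_xor, show c + 1 + 1 = c + 2 by ring] at h3
      rw [h6, h3] at h4
      simp at h4
    · have h5 : v c = false := hz _ (by obtain ⟨d, rfl⟩ := hc; omega)
      have h6 : v (c + 1 + 1) = false := hz _ (by obtain ⟨d, rfl⟩ := hc; omega)
      rw [h5, Bool.false_xor] at h2
      rw [h6, h2] at h3
      simp at h3

/-- The marker of scale `2^e` does not occur in the orbit of `xq (2^e')` for `e' ≠ e`. -/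
theorem no_marker {e e' : ℕ} (hne : e' ≠ e) (r : ℕ) (hr : r < 2 ^ e') (s : ℤ)
    (h : ∀ i : ℕ, i ≤ 3 * 2 ^ e → (F^[r] (xq (2 ^ e'))) (s + i) =
      decide (i = 0 ∨ i = 2 ^ e ∨ i = 3 * 2 ^ e)) : False := by
  rcases lt_or_gt_of_ne hne with hlt | hlt
  · -- small scale
    set q := 2 ^ e with hq
    set q' := 2 ^ e' with hq'
    have hq0 : 0 < q' := by positivity
    have h2 : 2 * q' ≤ q := by
      rw [hq, hq', ← pow_succ']
      exact Nat.pow_le_pow_right (by norm_num) hlt
    have hone : ∀ c : ℤ, (F^[r] (xq q')) (3 * q' * c) = true := by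
      intro c
      have := row (sp_xq q' hq0) r hr (3 * c) 0 hq0
      rw [show (q' : ℤ) * (3 * c) - ((0 : ℕ) : ℤ) = 3 * q' * c by push_cast; ring] at this
      rw [this]
      have h3 : xq q' (q' * (3 * c)) = true := by
        unfold xq
        rw [decide_eq_true_eq]
        left
        rw [show (q' : ℤ) * (3 * c) = ((3 * q' : ℕ) : ℤ) * c by push_cast; ring]
        exact Int.mul_emod_right _ _
      rw [h3]; simp
    have hm : (0 : ℤ) < 3 * q' := by positivity
    -- the least multiple of `3q'` beyond `s + q`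
    set c := (s + q) / (3 * q') + 1 with hc
    have e1 := Int.mul_ediv_add_emod (s + q) (3 * (q' : ℤ))
    have e2 := Int.emod_nonneg (s + q) hm.ne'
    have e3 := Int.emod_lt_of_pos (s + q) hm
    have e4 : 3 * (q' : ℤ) * c = 3 * q' * ((s + q) / (3 * q')) + 3 * q' := by rw [hc]; ring
    obtain ⟨i, hi⟩ : ∃ i : ℕ, s + i = 3 * q' * c :=
      ⟨(3 * q' * c - s).toNat, by rw [Int.toNat_of_nonneg (by omega)]; ring⟩
    have h5 : q < i ∧ i < 3 * q := by omega
    have h6 := h i (by omega)
    rw [hi, hone c] at h6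
    have h7 : ¬ (i = 0 ∨ i = q ∨ i = 3 * q) := by omega
    rw [decide_eq_false h7] at h6
    exact absurd h6 (by simp)
  · -- large scale
    obtain ⟨d, hd⟩ := Nat.exists_eq_add_of_lt hlt
    set q := 2 ^ e with hq
    set Q := 2 ^ (d + 1) with hQ
    have hqQ : 2 ^ e' = q * Q := by rw [hd, hq, hQ, ← pow_add]; congr 1
    have hq0 : 0 < q := by positivity
    have hQ0 : 0 < Q := by positivity
    rw [hqQ] at h hr
    -- the scaled configuration
    have hsc : ∀ i : ℤ, xq (q * Q) ((2 ^ e : ℕ) * i) = xq Q i := by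
      intro i
      unfold xq
      rw [← hq]
      have e1 : ((q : ℤ) * i) % ((3 * (q * Q) : ℕ) : ℤ) = q * (i % ((3 * Q : ℕ) : ℤ)) := by
        rw [show ((3 * (q * Q) : ℕ) : ℤ) = (q : ℤ) * ((3 * Q : ℕ) : ℤ) by push_cast; ring]
        exact Int.mul_emod_mul_of_pos _ _ (by exact_mod_cast hq0)
      rw [e1]
      congr 1
      rw [eq_iff_iff]
      have hq1 : (q : ℤ) ≠ 0 := by exact_mod_cast hq0.ne'
      constructor
      · rintro (h | h)
        · left
          exact (mul_eq_zero.1 h).resolve_left hq1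
        · right
          push_cast at h
          exact mul_left_cancel₀ hq1 h
      · rintro (h | h)
        · left; rw [h, mul_zero]
        · right; rw [h]; push_cast; ring
    have hsp : Sp (2 ^ e) (xq (q * Q)) := by
      intro i hi
      have := sp_xq (q * Q) (by positivity) i hi
      rw [← hq]
      exact dvd_trans (by push_cast; exact Dvd.intro _ rfl) this
    obtain ⟨hz1, hz2⟩ := sp_iter hsc hsp (r / q)
    rw [← hq] at hz1 hz2
    set z := F^[q * (r / q)] (xq (q * Q)) with hz
    have hr2 : F^[r] (xq (q * Q)) = F^[r % q] z := by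
      rw [hz, ← Function.iterate_add_apply, Nat.mod_add_div]
    rw [hr2] at h
    set t := r % q with ht
    have htq : t < q := Nat.mod_lt _ hq0
    have hrow := row hz1 t htq
    -- locate the one at relative position `q`
    obtain ⟨c, b, hb, hcb⟩ : ∃ (c : ℤ) (b : ℕ), b < q ∧ s + q = q * c - b := by
      have hq1 : (0 : ℤ) < q := by exact_mod_cast hq0
      refine ⟨-(-(s + q) / q), (-(s + q) % q).toNat, ?_, ?_⟩
      · have := Int.emod_lt_of_pos (-(s + q)) hq1
        have h2 := Int.emod_nonneg (-(s + q)) hq1.ne'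
        omega
      · rw [Int.toNat_of_nonneg (Int.emod_nonneg _ hq1.ne')]
        have := Int.mul_ediv_add_emod (-(s + q)) q
        linarith
    have h1 := h q (by omega)
    rw [hcb, hrow c b hb, decide_eq_true (by omega : q = 0 ∨ q = q ∨ q = 3 * q)] at h1
    rw [Bool.and_eq_true, decide_eq_true_eq] at h1
    have hbt : b ≤ t := by
      by_contra hcon
      rw [Nat.choose_eq_zero_of_lt (by omega)] at h1
      exact absurd h1.2 (by decide)
    have hb0 : b = 0 := by
      by_contra hcon
      have h2 := h (q + b) (by omega)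
      rw [show s + ((q + b : ℕ) : ℤ) = q * c - ((0 : ℕ) : ℤ) by push_cast; linarith,
        hrow c 0 hq0, h1.1, decide_eq_false (by omega : ¬ (q + b = 0 ∨ q + b = q ∨ q + b = 3 * q))]
        at h2
      simp at h2
    subst hb0
    have ht0 : t = 0 := by
      by_contra hcon
      have h2 := h (q - t) (by omega)
      rw [show s + ((q - t : ℕ) : ℤ) = q * c - (t : ℤ) by
          rw [Nat.cast_sub htq.le]; push_cast at hcb; linarith,
        hrow c t htq, h1.1, decide_eq_false (by omega : ¬ (q - t = 0 ∨ q - t = q ∨ q - t = 3 * q))]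
        at h2
      simp at h2
    rw [ht0] at h
    simp only [Function.iterate_zero, id_eq] at h
    have hs : s = q * (c - 1) := by push_cast at hcb; linarith
    have p0 := h 0 (by omega)
    have p1 := h q (by omega)
    have p2 := h (2 * q) (by omega)
    have p3 := h (3 * q) (by omega)
    rw [hs, show (q : ℤ) * (c - 1) + ((0 : ℕ) : ℤ) = q * (c - 1) by push_cast; ring, hz2,
      decide_eq_true (by omega : 0 = 0 ∨ 0 = q ∨ 0 = 3 * q)] at p0
    rw [hs, show (q : ℤ) * (c - 1) + (q : ℤ) = q * c by ring, hz2,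
      decide_eq_true (by omega : q = 0 ∨ q = q ∨ q = 3 * q)] at p1
    rw [hs, show (q : ℤ) * (c - 1) + ((2 * q : ℕ) : ℤ) = q * (c + 1) by push_cast; ring, hz2,
      decide_eq_false (by omega : ¬ (2 * q = 0 ∨ 2 * q = q ∨ 2 * q = 3 * q))] at p2
    rw [hs, show (q : ℤ) * (c - 1) + ((3 * q : ℕ) : ℤ) = q * (c + 2) by push_cast; ring, hz2,
      decide_eq_true (by omega : 3 * q = 0 ∨ 3 * q = q ∨ 3 * q = 3 * q)] at p3
    have hsp2 : Sp 2 (xq Q) := by
      intro i hi
      have := sp_xq Q hQ0 i hi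
      exact dvd_trans (by rw [hQ, pow_succ]; push_cast; exact Dvd.intro_left _ rfl) this
    exact no1101 hsp2 (r / q) c ⟨p0, p1, p2, p3⟩

theorem cnt_other {e e' : ℕ} (hne : e' ≠ e) (n : ℕ) : cnt (fun _ => n) e' (wq (2 ^ e)) = 0 := by
  classical
  unfold cnt
  rw [card_eq_zero, filter_eq_empty_iff]
  intro θ _ hθ
  rw [xq_all, mem_cyl_wq] at hθ
  refine no_marker hne (n % 2 ^ e') (Nat.mod_lt _ (by positivity))
    (-(θ : ℤ) + (2 * 2 ^ e' * (n / 2 ^ e') : ℕ)) fun i hi => ?_
  rw [← hθ i hi]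
  simp only [conf]
  rw [shift_iter_apply]
  congr 1
  ring

theorem dl_wq (q : ℕ) : dl (wq q) = 0 := by
  unfold dl
  rw [if_neg]
  rw [mem_cyl_wq]
  intro h
  have := h 0 (by omega)
  simp [zero] at this

theorem xq_add_mul (q : ℕ) (i c : ℤ) : xq q (i + 3 * q * c) = xq q i := by
  unfold xq
  rw [show i + 3 * q * c = i + ((3 * q : ℕ) : ℤ) * c by push_cast; ring,
    Int.add_mul_emod_self_left]

theorem xq_window {q : ℕ} (hq : 0 < q) {i : ℕ} (hi : i ≤ 3 * q) :
    xq q i = decide (i = 0 ∨ i = q ∨ i = 3 * q) := by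
  unfold xq
  congr 1
  rw [eq_iff_iff]
  have h1 : (i : ℤ) % ((3 * q : ℕ) : ℤ) = ((i % (3 * q) : ℕ) : ℤ) := (Int.natCast_mod _ _).symm
  rw [h1]
  rcases Nat.lt_or_ge i (3 * q) with h | h
  · rw [Nat.mod_eq_of_lt h]
    omega
  · have : i = 3 * q := by omega
    subst this
    rw [Nat.mod_self]
    simp

theorem cnt_self (e j : ℕ) : 1 ≤ cnt (fun _ => 2 ^ e * j) e (wq (2 ^ e)) := by
  classical
  have hq0 : 0 < 2 ^ e := by positivity
  unfold cnt
  rw [Nat.one_le_iff_ne_zero, ← Nat.pos_iff_ne_zero, card_pos]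
  refine ⟨(2 * 2 ^ e * j) % (3 * 2 ^ e), ?_⟩
  rw [mem_filter, mem_range]
  refine ⟨Nat.mod_lt _ (by positivity), ?_⟩
  rw [xq_iter, mem_cyl_wq]
  intro i hi
  rw [← xq_window hq0 hi]
  simp only [conf]
  rw [shift_iter_apply]
  have h1 : ((2 * 2 ^ e * j : ℕ) : ℤ) = ((3 * 2 ^ e : ℕ) : ℤ) *
      ((2 * 2 ^ e * j / (3 * 2 ^ e) : ℕ) : ℤ) + ((2 * 2 ^ e * j % (3 * 2 ^ e) : ℕ) : ℤ) := by
    exact_mod_cast (Nat.div_add_mod _ _).symm
  rw [← xq_add_mul (2 ^ e) i ((2 * 2 ^ e * j / (3 * 2 ^ e) : ℕ) : ℤ)]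
  congr 1
  rw [h1]
  push_cast
  ring

theorem mem_limit {Q : ℕ → ℕ → Bool} (e : ℕ) :
    (¬ Tendsto (fun n => ((M (DD Q (fun _ t => t) (fun e _ => e)) N0).map (F^[n]))
      (cyl (wq (2 ^ e)))) atTop (𝓝 0)) ↔ ∃ t, Q e t = true := by
  set D := DD Q (fun _ t => t) (fun e _ => e) with hD
  have hp := fun N => M_prob D N
  constructor
  · intro h
    by_contra hcon
    apply h
    have h1 : ∀ n, ((M D N0).map (F^[n])) (cyl (wq (2 ^ e))) = 0 := by
      intro n
      rw [M_map_F]
      have h2 : (M D (fun b => n + N0 b) (cyl (wq (2 ^ e)))).toReal = 0 := by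
        rw [M_toReal]
        have h3 : ∀ e', (1 / 2 : ℝ) ^ (e' + 1) * val (fun b => n + N0 b) (wq (2 ^ e)) (D e') = 0 := by
          intro e'
          have h4 : val (fun b => n + N0 b) (wq (2 ^ e)) (D e') = 0 := by
            rw [hD]
            unfold DD
            rcases hlm : lm Q e' with _ | t
            · simp [val, dl_wq]
            · have hne : e' ≠ e := by
                rintro rfl
                exact hcon ((lm_isSome Q e').1 (by rw [hlm]; rfl))
              simp only [Option.map_some, val, dl_wq, mul_zero, add_zero]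
              have h5 : cnt (fun b => n + N0 b) e' (wq (2 ^ e)) = 0 := cnt_other hne n
              rw [h5]; simp
          rw [h4, mul_zero]
        simp only [h3, tsum_zero]
      rw [ENNReal.toReal_eq_zero_iff] at h2
      exact h2.resolve_right (measure_ne_top _ _)
    simp only [h1]
    exact tendsto_const_nhds
  · intro h hlim
    obtain ⟨t, ht⟩ := Option.isSome_iff_exists.1 ((lm_isSome Q e).2 h)
    have h1 : Tendsto (fun n => (((M D N0).map (F^[n])) (cyl (wq (2 ^ e)))).toReal) atTop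
        (𝓝 (0 : ENNReal).toReal) := by
      refine (ENNReal.tendsto_toReal (by norm_num)).comp hlim
    rw [ENNReal.toReal_zero] at h1
    set c : ℝ := (1 / 2 : ℝ) ^ (e + 1) * ((1 / 2 : ℝ) ^ t * (1 / (3 * 2 ^ e))) with hc
    have hc0 : 0 < c := by positivity
    obtain ⟨n0, hn0⟩ := (h1.eventually (gt_mem_nhds hc0)).exists_forall_of_atTop
    have h2 := hn0 (2 ^ e * n0) (Nat.le_mul_of_pos_left _ (by positivity))
    apply absurd h2
    rw [not_lt, M_map_F, M_toReal]
    have h3 := (summable_M D (fun b => 2 ^ e * n0 + N0 b) (wq (2 ^ e))).le_tsum e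
      (fun j _ => mul_nonneg (by positivity) (val_nonneg _ _ _))
    refine le_trans ?_ h3
    rw [hc]
    refine mul_le_mul_of_nonneg_left ?_ (by positivity)
    have h4 : D e = some (t, e) := by
      rw [hD]; unfold DD; rw [ht]; rfl
    rw [h4]
    simp only [val, dl_wq, mul_zero, add_zero]
    refine mul_le_mul_of_nonneg_left ?_ (by positivity)
    have h5 : (1 : ℝ) ≤ cnt (fun b => 2 ^ e * n0 + N0 b) e (wq (2 ^ e)) := by
      exact_mod_cast cnt_self e n0
    exact div_le_div_of_nonneg_right h5 (by positivity)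

theorem computable_wq : Computable fun e : ℕ => wq (2 ^ e) := by
  have h1 : Primrec fun q : ℕ => wq q := by
    unfold wq
    refine Primrec.list_map (Primrec.list_range.comp (Primrec.succ.comp
      (Primrec.nat_mul.comp (Primrec.const 3) Primrec.id))) ?_
    have h2 : PrimrecPred fun x : ℕ × ℕ => x.2 = 0 ∨ x.2 = x.1 ∨ x.2 = 3 * x.1 := by
      refine PrimrecPred.or (Primrec.eq.comp Primrec.snd (Primrec.const 0))
        (PrimrecPred.or (Primrec.eq.comp Primrec.snd Primrec.fst)
          (Primrec.eq.comp Primrec.snd (Primrec.nat_mul.comp (Primrec.const 3) Primrec.fst)))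
    exact h2.decide
  exact h1.to_comp.comp (by fun_prop)

end Pool.Agent.X235.Xor
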