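import Pool.Agent.X235.Xor.Mix

set_option autoImplicit false

/-!
Rows of the XOR automaton started from spaced configurations.
-/

namespace Pool.Agent.X235.Xor

open MeasureTheory Finset

/-- `z` is supported on the multiples of `q`. -/
def Sp (q : ℕ) (z : ℤ → Bool) : Prop := ∀ i, z i = true → (q : ℤ) ∣ i

theorem odd_choose_succ (t b : ℕ) : decide (Odd ((t + 1).choose (b + 1))) =
    xor (decide (Odd (t.choose (b + 1)))) (decide (Odd (t.choose b))) := by
  rw [Nat.choose_succ_succ]
  by_cases h1 : Odd (t.choose b) <;> by_cases h2 : Odd (t.choose (b + 1)) <;>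
    simp [Nat.odd_add, h1, h2, Nat.even_add] <;> simp_all [Nat.not_odd_iff_even, Nat.not_even_iff_odd]

theorem row {q : ℕ} {z : ℤ → Bool} (hz : Sp q z) : ∀ t, t < q → ∀ (c : ℤ) (b : ℕ), b < q →
    (F^[t] z) (q * c - b) = (z (q * c) && decide (Odd (t.choose b))) := by
  intro t
  induction t with
  | zero =>
    intro hq c b hb
    simp only [Function.iterate_zero, id_eq]
    rcases b with _ | b
    · simp
    · rw [Nat.choose_eq_zero_of_lt (by omega)]
      have : ¬ (z (q * c - ((b + 1 : ℕ) : ℤ)) = true) := by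
        intro h
        have h1 := hz _ h
        have h2 : (q : ℤ) ∣ ((b + 1 : ℕ) : ℤ) := by
          have := (dvd_sub_right (Dvd.intro c rfl : (q : ℤ) ∣ q * c)).1 h1
          exact this
        have h3 := Int.le_of_dvd (by omega) h2
        omega
      rw [Bool.not_eq_true] at this
      rw [this]; simp
  | succ t ih =>
    intro hq c b hb
    rw [Function.iterate_succ_apply']
    simp only [F]
    rw [ih (by omega) c b hb]
    rcases b with _ | b
    · rw [show (q : ℤ) * c - ((0 : ℕ) : ℤ) + 1 = q * (c + 1) - ((q - 1 : ℕ) : ℤ) by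
        rw [Nat.cast_sub (by omega)]; push_cast; ring]
      rw [ih (by omega) (c + 1) (q - 1) (by omega), Nat.choose_eq_zero_of_lt (by omega : t < q - 1)]
      simp
    · rw [show (q : ℤ) * c - ((b + 1 : ℕ) : ℤ) + 1 = q * c - (b : ℤ) by push_cast; ring,
        ih (by omega) c b (by omega), odd_choose_succ]
      cases z (q * c) <;> simp

theorem sp_xq (q : ℕ) (hq : 0 < q) : Sp q (xq q) := by
  intro i hi
  simp only [xq, decide_eq_true_eq] at hi
  have h1 : (q : ℤ) ∣ ((3 * q : ℕ) : ℤ) := by push_cast; exact Dvd.intro_left _ rfl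
  rcases hi with hi | hi
  · exact h1.trans (Int.dvd_of_emod_eq_zero hi)
  · have h2 : i = ((3 * q : ℕ) : ℤ) * (i / ((3 * q : ℕ) : ℤ)) + i % ((3 * q : ℕ) : ℤ) :=
      (Int.mul_ediv_add_emod i _).symm
    rw [h2, hi]
    exact dvd_add (h1.trans (Dvd.intro _ rfl)) (dvd_refl _)

theorem odd_choose_pred (s b : ℕ) (hb : b < 2 ^ s) : Odd ((2 ^ s - 1).choose b) := by
  induction b with
  | zero => simp
  | succ b ih =>
    have h1 := ih (by omega)
    have h2 : 2 ∣ (2 ^ s).choose (b + 1) :=
      Nat.prime_two.dvd_choose_pow (by omega) (by omega)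
    have h3 : (2 ^ s).choose (b + 1) = (2 ^ s - 1).choose b + (2 ^ s - 1).choose (b + 1) := by
      conv_lhs => rw [show 2 ^ s = (2 ^ s - 1) + 1 by have := Nat.one_le_two_pow (n := s); omega]
      rw [Nat.choose_succ_succ]
    rw [h3] at h2
    rw [Nat.odd_iff] at h1 ⊢
    omega

theorem xq_neg (q : ℕ) (hq : 0 < q) (d : ℕ) (hd : d < 3) : xq q (q * (-(d : ℤ))) = decide (d ≠ 1) := by
  unfold xq
  congr 1
  rw [eq_iff_iff]
  have h3q : (0 : ℤ) < ((3 * q : ℕ) : ℤ) := by push_cast; positivity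
  interval_cases d
  · simp
  · have : ((q : ℤ) * (-((1 : ℕ) : ℤ))) % ((3 * q : ℕ) : ℤ) = 2 * q := by
      rw [show (q : ℤ) * (-((1 : ℕ) : ℤ)) = 2 * q + ((3 * q : ℕ) : ℤ) * (-1) by push_cast; ring,
        Int.add_mul_emod_self_left, Int.emod_eq_of_lt (by positivity) (by push_cast; omega)]
    rw [this]
    simp
    omega
  · have : ((q : ℤ) * (-((2 : ℕ) : ℤ))) % ((3 * q : ℕ) : ℤ) = q := by
      rw [show (q : ℤ) * (-((2 : ℕ) : ℤ)) = q + ((3 * q : ℕ) : ℤ) * (-1) by push_cast; ring,
        Int.add_mul_emod_self_left, Int.emod_eq_of_lt (by positivity) (by push_cast; omega)]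
    rw [this]
    simp

/-- At time `2^s - 1` two thirds of the cells of `xq (2^s)` are ones. -/
theorem cnt_last (s : ℕ) : cnt (fun b => 2 ^ b - 1) s [true] = 2 * 2 ^ s := by
  classical
  set q := 2 ^ s with hq
  have hq0 : 0 < q := by positivity
  have h1 : ∀ θ : ℕ, θ < 3 * q → (conf (F^[q - 1] (xq q)) θ ∈ cyl [true] ↔ θ / q ≠ 1) := by
    intro θ hθ
    have h2 : conf (F^[q - 1] (xq q)) θ ∈ cyl [true] ↔ (F^[q - 1] (xq q)) (0 - θ) = true := by
      unfold cyl
      constructor
      · intro h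
        have := h ⟨0, by simp⟩
        simpa [conf] using this
      · intro h i
        obtain ⟨i, hi⟩ := i
        simp only [List.length_cons, List.length_nil] at hi
        have : i = 0 := by omega
        subst this
        simpa [conf] using h
    rw [h2]
    have h3 : (0 : ℤ) - θ = q * (-((θ / q : ℕ) : ℤ)) - ((θ % q : ℕ) : ℤ) := by
      have : (θ : ℤ) = q * ((θ / q : ℕ) : ℤ) + ((θ % q : ℕ) : ℤ) := by
        exact_mod_cast (Nat.div_add_mod θ q).symm
      linarith
    rw [h3, row (sp_xq q hq0) (q - 1) (by omega) _ _ (Nat.mod_lt _ hq0),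
      xq_neg q hq0 _ (Nat.div_lt_of_lt_mul (by rw [mul_comm]; exact hθ))]
    rw [hq, decide_eq_true (odd_choose_pred s _ (Nat.mod_lt _ (by positivity)))]
    simp
  unfold cnt
  have h4 : ((range (3 * q)).filter fun θ => conf (F^[q - 1] (xq q)) θ ∈ cyl [true]) =
      (range (3 * q)) \ (Ico q (2 * q)) := by
    ext θ
    rw [mem_filter, mem_sdiff, mem_range, mem_Ico]
    constructor
    · rintro ⟨h5, h6⟩
      refine ⟨h5, fun h7 => (h1 θ h5).1 h6 ?_⟩
      rw [Nat.div_eq_iff hq0]
      omega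
    · rintro ⟨h5, h6⟩
      refine ⟨h5, (h1 θ h5).2 fun h7 => h6 ?_⟩
      rw [Nat.div_eq_iff hq0] at h7
      omega
  rw [h4, card_sdiff_of_subset, card_range, Nat.card_Ico]
  · omega
  · intro θ hθ
    rw [mem_Ico] at hθ
    rw [mem_range]; omega

end Pool.Agent.X235.Xor
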